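import Mathlib

/-!
# Monomials in algebraic numbers are roots of integer polynomials of bounded degree and small height
-/

set_option autoImplicit false

namespace Pool.Agent.R351.SU

open Polynomial Module

theorem hgt_monomials {r : ℕ} (γ : Fin r → ℂ) (hγ : ∀ i, IsAlgebraic ℚ (γ i)) :
    ∃ n A : ℕ, 1 ≤ n ∧ 2 ≤ A ∧ ∀ c : Fin r → ℕ, ∃ p : ℤ[X], p ≠ 0 ∧ p.natDegree ≤ n ∧
      (∀ j, |p.coeff j| ≤ ((A ^ (1 + ∑ i, c i) : ℕ) : ℤ)) ∧ aeval (∏ i, γ i ^ c i) p = 0 := by
  classical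
  set F := IntermediateField.adjoin ℚ (Set.range γ) with hF
  have : FiniteDimensional ℚ F := by
    apply IntermediateField.finiteDimensional_adjoin
    rintro _ ⟨i, rfl⟩
    exact (hγ i).isIntegral
  have : NumberField F := { to_charZero := inferInstance, to_finiteDimensional := inferInstance }
  set g : Fin r → F := fun i => ⟨γ i, IntermediateField.subset_adjoin ℚ _ ⟨i, rfl⟩⟩ with hg
  obtain ⟨d, hd0, hd⟩ := exists_integral_multiples ℤ ℚ (Finset.univ.image g)
  set y : Fin r → F := fun i => d • g i with hy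
  have hyi : ∀ i, IsIntegral ℤ (y i) := fun i => hd _ (Finset.mem_image_of_mem _ (Finset.mem_univ i))
  -- the bound for the conjugates
  obtain ⟨B, hB⟩ : ∃ B : ℕ, ∀ (φ : F →+* ℂ) (i : Fin r), ‖φ (y i)‖ ≤ B := by
    obtain ⟨B, hB⟩ := (Finset.univ.image fun q : (F →+* ℂ) × Fin r => ‖q.1 (y q.2)‖).bddAbove
    refine ⟨⌈B⌉₊, fun φ i => ?_⟩
    have h1 : ‖φ (y i)‖ ≤ B := hB (by
      rw [Finset.coe_image]
      exact ⟨(φ, i), Finset.mem_coe.2 (Finset.mem_univ _), rfl⟩)
    exact h1.trans (Nat.le_ceil _)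
  set n := finrank ℚ F with hn
  set e := n.choose (n / 2) with he
  have he1 : 1 ≤ e := Nat.choose_pos (Nat.div_le_self _ _)
  have hn1 : 1 ≤ n := finrank_pos
  set A : ℕ := 2 * (B + 1) ^ n * d.natAbs ^ n * e with hA
  have hdn : 1 ≤ d.natAbs := Int.natAbs_pos.2 hd0
  have hA1 : (B + 1) ^ n * d.natAbs ^ n ≤ A := by
    rw [hA]
    calc (B + 1) ^ n * d.natAbs ^ n = (B + 1) ^ n * d.natAbs ^ n * 1 := (mul_one _).symm
      _ ≤ (2 * ((B + 1) ^ n * d.natAbs ^ n)) * e := Nat.mul_le_mul (by omega) he1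
      _ = _ := by ring
  have hA2 : e ≤ A := by
    rw [hA]
    have : 1 ≤ 2 * (B + 1) ^ n * d.natAbs ^ n := by
      have := Nat.one_le_pow n (B + 1) (by omega)
      have := Nat.one_le_pow n d.natAbs hdn
      nlinarith
    exact Nat.le_mul_of_pos_left _ this
  have hA3 : 2 ≤ A := by
    rw [hA]
    have h1 := Nat.one_le_pow n (B + 1) (by omega)
    have h2 := Nat.one_le_pow n d.natAbs hdn
    have h3 : 1 ≤ (B + 1) ^ n * d.natAbs ^ n * e := Nat.mul_pos (Nat.mul_pos h1 h2) he1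
    calc 2 = 2 * 1 := rfl
      _ ≤ 2 * ((B + 1) ^ n * d.natAbs ^ n * e) := Nat.mul_le_mul le_rfl h3
      _ = _ := by ring
  refine ⟨n, A, hn1, hA3, fun c => ?_⟩
  set s := ∑ i, c i with hs
  set x : F := ∏ i, y i ^ c i with hx
  have hxi : IsIntegral ℤ x := IsIntegral.prod _ fun i _ => (hyi i).pow _
  have hxg : x = (d : F) ^ s * ∏ i, g i ^ c i := by
    rw [hx, hs, ← Finset.prod_pow_eq_pow_sum, ← Finset.prod_mul_distrib]
    refine Finset.prod_congr rfl fun i _ => ?_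
    rw [hy]
    simp only [zsmul_eq_mul]
    rw [mul_pow]
  have hxB : ∀ φ : F →+* ℂ, ‖φ x‖ ≤ ((B + 1 : ℕ) : ℝ) ^ s := by
    intro φ
    rw [hx, map_prod, norm_prod, hs, ← Finset.prod_pow_eq_pow_sum]
    refine Finset.prod_le_prod (fun i _ => norm_nonneg _) fun i _ => ?_
    rw [map_pow, norm_pow]
    refine pow_le_pow_left₀ (norm_nonneg _) ((hB φ i).trans ?_) _
    push_cast
    linarith
  set m := minpoly ℤ x with hm
  have hmm : m.Monic := minpoly.monic hxi
  have hmQ : minpoly ℚ x = m.map (algebraMap ℤ ℚ) := minpoly.isIntegrallyClosed_eq_field_fractions' ℚ hxi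
  have hmd : m.natDegree ≤ n := by
    have h1 : m.natDegree = (minpoly ℚ x).natDegree := by
      rw [hmQ, natDegree_map_eq_of_injective (algebraMap ℤ ℚ).injective_int]
    rw [h1]
    exact minpoly.natDegree_le x
  have hmc : ∀ j, |m.coeff j| ≤ (((B + 1) ^ (s * n) * e : ℕ) : ℤ) := by
    intro j
    have h1 := NumberField.Embeddings.coeff_bdd_of_norm_le (K := F) (A := ℂ) (x := x) hxB j
    rw [hmQ, coeff_map] at h1
    have h2 : ‖(algebraMap ℤ ℚ) (m.coeff j)‖ = |((m.coeff j : ℤ) : ℝ)| := by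
      rw [eq_intCast, ← Rat.norm_cast_real]
      push_cast
      rfl
    rw [h2] at h1
    have h3 : (1 : ℝ) ≤ ((B + 1 : ℕ) : ℝ) ^ s := one_le_pow₀ (by push_cast; linarith [(Nat.cast_nonneg B : (0 : ℝ) ≤ B)])
    rw [max_eq_left h3, ← pow_mul] at h1
    have h4 : |((m.coeff j : ℤ) : ℝ)| ≤ (((B + 1) ^ (s * n) * e : ℕ) : ℝ) := by
      push_cast at h1 ⊢
      exact h1
    exact_mod_cast h4
  refine ⟨m.comp (C (d ^ s) * X), ?_, ?_, ?_, ?_⟩
  · intro h0
    have h1 := congrArg (fun q : ℤ[X] => q.coeff m.natDegree) h0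
    simp only [comp_C_mul_X_coeff, coeff_zero] at h1
    rw [hmm.coeff_natDegree, one_mul] at h1
    exact (pow_ne_zero _ (pow_ne_zero _ hd0)) h1
  · refine natDegree_comp_le.trans ?_
    have h1 : (C (d ^ s) * X : ℤ[X]).natDegree ≤ 1 :=
      (natDegree_C_mul_le _ _).trans natDegree_X_le
    calc m.natDegree * (C (d ^ s) * X : ℤ[X]).natDegree ≤ m.natDegree * 1 := Nat.mul_le_mul_left _ h1
      _ ≤ n := by omega
  · intro j
    rw [comp_C_mul_X_coeff, abs_mul]
    rcases le_or_gt j m.natDegree with hj | hj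
    · have h1 : |(d ^ s) ^ j| ≤ ((d.natAbs ^ (s * n) : ℕ) : ℤ) := by
        rw [← pow_mul, abs_pow, Int.abs_eq_natAbs]
        push_cast
        have h2 : (1 : ℤ) ≤ |d| := Int.one_le_abs hd0
        exact pow_le_pow_right₀ h2 (Nat.mul_le_mul_left _ (hj.trans hmd))
      calc |m.coeff j| * |(d ^ s) ^ j| ≤ (((B + 1) ^ (s * n) * e : ℕ) : ℤ) * ((d.natAbs ^ (s * n) : ℕ) : ℤ) :=
            mul_le_mul (hmc j) h1 (abs_nonneg _) (Int.natCast_nonneg _)
        _ ≤ ((A ^ (1 + s) : ℕ) : ℤ) := by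
            rw [← Nat.cast_mul]
            apply Nat.cast_le.2
            calc (B + 1) ^ (s * n) * e * d.natAbs ^ (s * n) = e * ((B + 1) ^ n * d.natAbs ^ n) ^ s := by
                  rw [mul_pow, ← pow_mul, ← pow_mul, mul_comm n s]
                  ring
              _ ≤ A * A ^ s := Nat.mul_le_mul hA2 (Nat.pow_le_pow_left hA1 _)
              _ = A ^ (1 + s) := by rw [pow_add, pow_one]
    · rw [coeff_eq_zero_of_natDegree_lt hj, abs_zero, zero_mul]
      exact Int.natCast_nonneg _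
  · have h1 : aeval x m = 0 := minpoly.aeval ℤ x
    have h2 : algebraMap F ℂ x = (d : ℂ) ^ s * ∏ i, γ i ^ c i := by
      rw [hxg, map_mul, map_pow, map_prod]
      simp only [map_pow]
      congr 2
    rw [aeval_comp, map_mul, aeval_C, aeval_X]
    have h3 : (algebraMap ℤ ℂ (d ^ s)) * ∏ i, γ i ^ c i = algebraMap F ℂ x := by
      rw [h2]
      simp
    rw [h3, aeval_algebraMap_apply, h1, map_zero]

end Pool.Agent.R351.SU
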