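import Mathlib
import Pool.Agent.R351.SU.Hgt
import Pool.Agent.Y916.Al.WinP

/-!
# The logarithms of the numbers `u α ^ m + v β ^ m`: multiplicative windows
-/

set_option autoImplicit false

namespace Pool.Agent.R351.SU

open Module Pool.Agent.Y916.Al Pool.Agent.Y916.Om

/-- the data of the numbers `u α ^ m + v β ^ m`, for vectors `m` of natural numbers -/
structure Fam (r : ℕ) where
  u : ℂ
  v : ℂ
  α : Fin r → ℂ
  β : Fin r → ℂ
  hu : IsAlgebraic ℚ u
  hv : IsAlgebraic ℚ v
  hu0 : u ≠ 0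
  hv0 : v ≠ 0
  hα : ∀ i, IsAlgebraic ℚ (α i)
  hβ : ∀ i, IsAlgebraic ℚ (β i)
  hβ0 : ∀ i, β i ≠ 0
  hlt : ∀ i, ‖β i‖ < ‖α i‖
  inj : Function.Injective fun m : Fin r → ℕ => ∏ i, (β i / α i) ^ m i

variable {r : ℕ}

theorem Fam.α0 (f : Fam r) (i : Fin r) : f.α i ≠ 0 := by
  intro h
  have := f.hlt i
  rw [h, norm_zero] at this
  exact absurd (norm_nonneg _) (not_le.2 this)

/-- the numbers -/
def Fam.val (f : Fam r) (m : Fin r → ℕ) : ℂ := f.u * ∏ i, f.α i ^ m i + f.v * ∏ i, f.β i ^ m i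

/-- a logarithm of `a` satisfies a relation of degree at most `δ` over the numbers `w`, with
coefficients in a number field of degree at most `d` -/
def Exc {υ : Type} (d δ : ℕ) (w : υ → ℂ) (a : ℂ) : Prop :=
  ∃ l : ℂ, Complex.exp l = a ∧ ∃ K : IntermediateField ℚ ℂ, FiniteDimensional ℚ K ∧ finrank ℚ K ≤ d ∧
    ∃ P : MvPolynomial (υ ⊕ Fin 1) K, P.totalDegree ≤ δ ∧
      MvPolynomial.aeval (Sum.elim w fun _ => l) P = 0 ∧
      MvPolynomial.aeval (Sum.elim (fun j => MvPolynomial.C (w j)) MvPolynomial.X) P ≠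
        (0 : MvPolynomial (Fin 1) ℂ)

/-- the constants -/
noncomputable def cst {υ : Type} (f : Fam r) (w : υ → ℂ) : υ ⊕ Option (Option (Fin r)) → ℂ :=
  Sum.elim w fun o => o.elim (2 * Real.pi * Complex.I) fun o => o.elim (Complex.log f.u)
    fun i => Complex.log (f.α i)

theorem window (f : Fam r) (N d δ : ℕ) : ∃ Q : ℕ, 0 < Q ∧ ∀ (υ : Type) [Fintype υ],
    Fintype.card υ = N → ∀ w : υ → ℂ, ∀ (b : Fin r → ℕ) (s : ℕ), Q * (s + 1) ≤ ∑ i, b i →
    ∀ B : Finset (Fin r → ℕ), (∀ m ∈ B, m ≤ b ∧ ∑ i, b i ≤ ∑ i, m i + s ∧ Exc d δ w (f.val m)) →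
      B.card ≤ N + r + 2 := by
  classical
  -- the heights
  set γ : Fin r → ℂ := fun i => f.α i / f.β i with hγ
  have hγ0 : ∀ i, γ i ≠ 0 := fun i => div_ne_zero (f.α0 i) (f.hβ0 i)
  have hγa : ∀ i, IsAlgebraic ℚ (γ i) := fun i => by
    rw [hγ]
    simp only [div_eq_mul_inv]
    exact (f.hα i).mul (f.hβ i).inv
  obtain ⟨n, A, hn, hA, hgt⟩ := hgt_monomials (Fin.cons (f.v / f.u) γ : Fin (r + 1) → ℂ) (by
    intro i
    refine Fin.cases ?_ (fun i => ?_) i
    · rw [Fin.cons_zero, div_eq_mul_inv]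
      exact f.hv.mul f.hu.inv
    · rw [Fin.cons_succ]
      exact hγa i)
  -- a lower bound for the absolute values of the `γ i`
  obtain ⟨g, hg1, hg⟩ : ∃ g : ℝ, 1 < g ∧ ∀ i, g ≤ ‖γ i‖ := by
    have h1 : ∀ i, 1 < ‖γ i‖ := by
      intro i
      rw [hγ]
      simp only [norm_div]
      rw [one_lt_div (norm_pos_iff.2 (f.hβ0 i))]
      exact f.hlt i
    rcases (Finset.univ : Finset (Fin r)).eq_empty_or_nonempty with h0 | hne
    · exact ⟨2, by norm_num, fun i => absurd (Finset.mem_univ i) (by rw [h0]; exact Finset.notMem_empty i)⟩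
    · obtain ⟨i₀, -, hi₀⟩ := Finset.exists_min_image Finset.univ (fun i => ‖γ i‖) hne
      exact ⟨‖γ i₀‖, h1 i₀, fun i => hi₀ i (Finset.mem_univ i)⟩
  obtain ⟨G, hG⟩ := pow_unbounded_of_one_lt (A : ℝ) hg1
  have hG1 : 1 ≤ G := by
    by_contra h
    have h0 : G = 0 := by omega
    rw [h0, pow_zero] at hG
    have : (2 : ℝ) ≤ A := by exact_mod_cast hA
    linarith
  set τ := N + r + 2 with hτ
  obtain ⟨E, hE1, hE⟩ := windowP 1 (max d n) δ τ 1 1 n (2 * G)
  refine ⟨3 * G * E, by positivity, fun υ _ hυ w b s hbs B hB => ?_⟩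
  set ξ : ℂ := ∏ i, γ i ^ b i with hξ
  have hA1 : (1 : ℝ) ≤ A := by
    have : 1 ≤ A := by omega
    exact_mod_cast this
  have hξn : g ^ (∑ i, b i) ≤ ‖ξ‖ := by
    rw [hξ, norm_prod, ← Finset.prod_pow_eq_pow_sum]
    refine Finset.prod_le_prod (fun i _ => by positivity) fun i _ => ?_
    rw [norm_pow]
    exact pow_le_pow_left₀ (by linarith) (hg i) _
  have hξ0 : ξ ≠ 0 := Finset.prod_ne_zero_iff.2 fun i _ => pow_ne_zero _ (hγ0 i)
  have hb1 : 1 ≤ ∑ i, b i := by
    refine le_trans ?_ hbs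
    exact Nat.mul_pos (by positivity) (by omega)
  -- the height of `ξ`
  have hHt : Ht n (2 * G) ξ := by
    obtain ⟨p, hp0, hpd, hpc, hpv⟩ := hgt (Fin.cons 0 b : Fin (r + 1) → ℕ)
    refine ⟨p, hp0, hpd, fun j => ?_, ?_⟩
    · have h1 : |(p.coeff j : ℝ)| ≤ (A : ℝ) ^ (1 + ∑ i, b i) := by
        have h2 := hpc j
        rw [Fin.sum_univ_succ] at h2
        simp only [Fin.cons_zero, Fin.cons_succ, zero_add] at h2
        exact_mod_cast h2
      refine h1.trans ?_
      have h3 : (A : ℝ) ^ (1 + ∑ i, b i) ≤ (A : ℝ) ^ (2 * ∑ i, b i) :=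
        pow_le_pow_right₀ hA1 (by omega)
      refine h3.trans ?_
      calc (A : ℝ) ^ (2 * ∑ i, b i) ≤ (g ^ G) ^ (2 * ∑ i, b i) :=
            pow_le_pow_left₀ (by linarith) hG.le _
        _ = (g ^ (∑ i, b i)) ^ (2 * G) := by rw [← pow_mul, ← pow_mul]; congr 1; ring
        _ ≤ ‖ξ‖ ^ (2 * G) := pow_le_pow_left₀ (by positivity) hξn _
    · rw [Fin.prod_univ_succ] at hpv
      simp only [Fin.cons_zero, Fin.cons_succ, pow_zero, one_mul] at hpv
      exact hpv
  -- the size of the window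
  set H : ℕ := A ^ (s + 2) with hH
  have hHξ : ((H : ℝ) + 2) ^ E ≤ ‖ξ‖ := by
    have h1 : ((H : ℝ) + 2) ≤ (A : ℝ) ^ (s + 3) := by
      rw [hH]
      push_cast
      have h2 : (2 : ℝ) ≤ A := by exact_mod_cast hA
      have h3 : (2 : ℝ) ≤ (A : ℝ) ^ (s + 2) := by
        calc (2 : ℝ) ≤ A := h2
          _ = (A : ℝ) ^ 1 := (pow_one _).symm
          _ ≤ _ := pow_le_pow_right₀ hA1 (by omega)
      rw [pow_succ (A : ℝ) (s + 2)]
      nlinarith
    calc ((H : ℝ) + 2) ^ E ≤ ((A : ℝ) ^ (s + 3)) ^ E := pow_le_pow_left₀ (by positivity) h1 _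
      _ ≤ ((g ^ G) ^ (s + 3)) ^ E :=
          pow_le_pow_left₀ (by positivity) (pow_le_pow_left₀ (by linarith) hG.le _) _
      _ = g ^ (G * (s + 3) * E) := by rw [← pow_mul, ← pow_mul, mul_assoc]
      _ ≤ g ^ (∑ i, b i) := by
          apply pow_le_pow_right₀ hg1.le
          refine le_trans ?_ hbs
          calc G * (s + 3) * E = (G * E) * (s + 3) := by ring
            _ ≤ (G * E) * (3 * (s + 1)) := Nat.mul_le_mul_left _ (by omega)
            _ = 3 * G * E * (s + 1) := by ring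
      _ ≤ ‖ξ‖ := hξn
  -- the constants
  obtain ⟨S, hS, h⟩ := hE H ξ hHξ hHt (υ ⊕ Option (Option (Fin r))) (cst f w) Finset.univ
    (by rw [Finset.card_univ, Fintype.card_sum, Fintype.card_option, Fintype.card_option,
      Fintype.card_fin, hυ, hτ]; ring) (Dom.univ _)
  refine le_trans ?_ hS
  set bt : (Fin r → ℕ) → ℂ := fun m => f.v / f.u * ∏ i, γ i ^ (b i - m i) with hbt
  have hbt2 : ∀ m, m ≤ b → bt m / ξ = f.v / f.u * ∏ i, (f.β i / f.α i) ^ m i := by
    intro m hm
    rw [hbt, hξ]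
    simp only
    rw [mul_div_assoc, ← Finset.prod_div_distrib]
    congr 1
    refine Finset.prod_congr rfl fun i _ => ?_
    have h1 : γ i ^ b i = γ i ^ (b i - m i) * γ i ^ m i := by
      rw [← pow_add, Nat.sub_add_cancel (hm i)]
    rw [h1, div_mul_eq_div_div, div_self (pow_ne_zero _ (hγ0 i)), hγ]
    simp only
    rw [one_div, ← inv_pow, inv_div]
  refine Finset.card_le_card_of_injOn bt (fun m hm => ?_) (fun m hm m' hm' hmm => ?_)
  · -- the exceptional elements
    by_contra hmS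
    obtain ⟨hmb, hms, l, hl, K, hK, hKd, P, hPd, hP0, hP1⟩ := hB m hm
    have hval : f.val m = (f.u * ∏ i, f.α i ^ m i) * (1 + bt m / ξ) := by
      rw [hbt2 m hmb, Fam.val]
      have h1 : (∏ i, f.α i ^ m i) * ∏ i, (f.β i / f.α i) ^ m i = ∏ i, f.β i ^ m i := by
        rw [← Finset.prod_mul_distrib]
        refine Finset.prod_congr rfl fun i _ => ?_
        rw [← mul_pow, mul_div_cancel₀ _ (f.α0 i)]
      calc f.u * ∏ i, f.α i ^ m i + f.v * ∏ i, f.β i ^ m i
          = f.u * ∏ i, f.α i ^ m i + f.v * ((∏ i, f.α i ^ m i) * ∏ i, (f.β i / f.α i) ^ m i) := by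
            rw [h1]
        _ = _ := by
            have := f.hu0
            field_simp
    have hv0 : f.val m ≠ 0 := by rw [← hl]; exact Complex.exp_ne_zero _
    have h10 : 1 + bt m / ξ ≠ 0 := fun h0 => hv0 (by rw [hval, h0, mul_zero])
    -- the branches
    obtain ⟨z, hz⟩ : ∃ z : ℤ, l = Complex.log (1 + bt m / ξ) + Complex.log f.u +
        ∑ i, (m i : ℂ) * Complex.log (f.α i) + z * (2 * Real.pi * Complex.I) := by
      have h2 : Complex.exp l = Complex.exp (Complex.log (1 + bt m / ξ) + Complex.log f.u +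
          ∑ i, (m i : ℂ) * Complex.log (f.α i)) := by
        rw [hl, hval, Complex.exp_add, Complex.exp_add, Complex.exp_log h10, Complex.exp_log f.hu0,
          Complex.exp_sum]
        have h3 : ∏ i, Complex.exp ((m i : ℂ) * Complex.log (f.α i)) = ∏ i, f.α i ^ m i := by
          refine Finset.prod_congr rfl fun i _ => ?_
          rw [Complex.exp_nat_mul, Complex.exp_log (f.α0 i)]
        rw [h3]
        ring
      exact Complex.exp_eq_exp_iff_exists_int.1 h2
    have hspan : l - (1 : K) * Complex.log (1 + bt m / ξ) ∈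
        Submodule.span K (insert 1 (Set.range (cst f w))) := by
      have hin : ∀ x, cst f w x ∈ Submodule.span K (insert 1 (Set.range (cst f w))) :=
        fun x => Submodule.subset_span (Or.inr ⟨x, rfl⟩)
      have h3 : l - (1 : K) * Complex.log (1 + bt m / ξ) = cst f w (Sum.inr (some none)) +
          ∑ i, (m i : K) • cst f w (Sum.inr (some (some i))) + (z : K) • cst f w (Sum.inr none) := by
        rw [hz]
        simp only [cst, Sum.elim_inr, Option.elim]
        have h4 : ∀ i, ((m i : K) • Complex.log (f.α i) : ℂ) = (m i : ℂ) * Complex.log (f.α i) := by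
          intro i
          rw [Algebra.smul_def]
          simp
        have h5 : ((z : K) • (2 * Real.pi * Complex.I) : ℂ) = (z : ℂ) * (2 * Real.pi * Complex.I) := by
          rw [Algebra.smul_def]
          simp
        simp only [h4, h5]
        push_cast
        ring
      rw [h3]
      exact Submodule.add_mem _ (Submodule.add_mem _ (hin _) (Submodule.sum_mem _ fun i _ =>
        Submodule.smul_mem _ _ (hin _))) (Submodule.smul_mem _ _ (hin _))
    have hAdm : Pool.Agent.Y916.Ari.Adm (max d n) H (bt m) := by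
      obtain ⟨p, hp0, hpd, hpc, hpv⟩ := hgt (Fin.cons 1 fun i => b i - m i : Fin (r + 1) → ℕ)
      refine ⟨p, hp0, hpd.trans (le_max_right _ _), fun j => (hpc j).trans ?_, ?_⟩
      · rw [hH]
        apply Nat.cast_le.2
        apply Nat.pow_le_pow_right (by omega)
        rw [Fin.sum_univ_succ]
        simp only [Fin.cons_zero, Fin.cons_succ]
        have h6 : ∑ i, (b i - m i) + ∑ i, m i = ∑ i, b i := by
          rw [← Finset.sum_add_distrib]
          exact Finset.sum_congr rfl fun i _ => Nat.sub_add_cancel (hmb i)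
        omega
      · rw [Fin.prod_univ_succ] at hpv
        simp only [Fin.cons_zero, Fin.cons_succ, pow_one] at hpv
        exact hpv
    have h7 := h (fun _ => bt m) (fun a b _ => Subsingleton.elim a b) (fun _ => ⟨hmS, by
      rw [hbt]
      exact mul_ne_zero (div_ne_zero f.hv0 f.hu0)
        (Finset.prod_ne_zero_iff.2 fun i _ => pow_ne_zero _ (hγ0 i)), hAdm⟩) K hK
      (hKd.trans (le_max_left _ _)) (fun _ => l) (fun _ => ⟨1, one_ne_zero, hspan⟩)
      (MvPolynomial.rename (Sum.map Sum.inl id) P) ((MvPolynomial.totalDegree_rename_le _ _).trans hPd)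
      (by
        rw [MvPolynomial.aeval_rename, ← hP0]
        congr 2
        funext x
        rcases x with x | x <;> rfl)
    rw [MvPolynomial.aeval_rename] at h7
    apply hP1
    rw [← h7]
    congr 2
    funext x
    rcases x with x | x <;> rfl
  · -- injectivity
    have h1 := hbt2 m (hB m hm).1
    have h2 := hbt2 m' (hB m' hm').1
    have h3 : bt m = bt m' := hmm
    rw [h3, h2] at h1
    exact (f.inj (mul_left_cancel₀ (div_ne_zero f.hv0 f.hu0) h1)).symm

end Pool.Agent.R351.SU
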