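import Mathlib
import Pool.Agent.R351.SU.Wdw

/-!
# The number of exceptional vectors `m ≤ M` is at most a constant times `log M`
-/

set_option autoImplicit false

namespace Pool.Agent.R351.SU

open Finset

variable {r : ℕ}

open Classical in
/-- A subset of `[0, M] ^ r` with at most `τ` elements in each multiplicative window has at most
`C (log M + 1)` elements. -/
theorem cover (r Q τ : ℕ) (hQ : 0 < Q) : ∃ C : ℕ, ∀ (M : ℕ) (X : Finset (Fin r → ℕ)), 1 ≤ M →
    (∀ m ∈ X, ∀ i, m i ≤ M) →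
    (∀ (b : Fin r → ℕ) (s : ℕ), Q * (s + 1) ≤ ∑ i, b i → ∀ B : Finset (Fin r → ℕ),
      (∀ m ∈ B, m ≤ b ∧ ∑ i, b i ≤ ∑ i, m i + s ∧ m ∈ X) → B.card ≤ τ) →
    X.card ≤ C * (Nat.log 2 M + 1) := by
  classical
  set q := Q * (r + 1) with hq
  have hq1 : 1 ≤ q := Nat.mul_pos hQ (by omega)
  refine ⟨(2 * q) ^ r + (Nat.log 2 (r + 1) + 2) * (4 * q + 3) ^ r * τ, fun M X hM hXM hX => ?_⟩
  -- small vectors
  set X₀ := X.filter fun m => ∑ i, m i < 2 * q with hX₀
  set X₁ := X.filter fun m => ¬ ∑ i, m i < 2 * q with hX₁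
  have hsplit : X.card = X₀.card + X₁.card := by
    rw [hX₀, hX₁, Finset.card_filter_add_card_filter_not]
  have h0 : X₀.card ≤ (2 * q) ^ r := by
    have h1 : X₀ ⊆ Fintype.piFinset fun _ : Fin r => range (2 * q) := by
      intro m hm
      rw [Fintype.mem_piFinset]
      intro i
      rw [mem_range]
      have h2 := (mem_filter.1 hm).2
      have h3 : m i ≤ ∑ i, m i := Finset.single_le_sum (fun _ _ => Nat.zero_le _) (mem_univ i)
      omega
    refine (card_le_card h1).trans ?_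
    rw [Fintype.card_piFinset_const, card_range]
  -- large vectors
  set σ : ℕ → ℕ := fun e => 2 ^ e / q with hσ
  set key : (Fin r → ℕ) → ℕ × (Fin r → ℕ) := fun m =>
    (Nat.log 2 (∑ i, m i), fun i => (m i + σ (Nat.log 2 (∑ i, m i)) - 1) / σ (Nat.log 2 (∑ i, m i)))
    with hkey
  set L := Nat.log 2 (r + 1) + 2 + Nat.log 2 M with hL
  set T := (range L) ×ˢ (Fintype.piFinset fun _ : Fin r => range (4 * q + 3)) with hT
  have hbig : ∀ m ∈ X₁, 2 * q ≤ ∑ i, m i := fun m hm => not_lt.1 (mem_filter.1 hm).2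
  have hpow : ∀ m ∈ X₁, 2 ^ Nat.log 2 (∑ i, m i) ≤ ∑ i, m i ∧
      ∑ i, m i < 2 ^ (Nat.log 2 (∑ i, m i) + 1) := by
    intro m hm
    have h1 := hbig m hm
    exact ⟨Nat.pow_log_le_self 2 (by omega), Nat.lt_pow_succ_log_self (by norm_num) _⟩
  have hσ1 : ∀ m ∈ X₁, 1 ≤ σ (Nat.log 2 (∑ i, m i)) := by
    intro m hm
    have h1 := hbig m hm
    have h2 := (hpow m hm).2
    rw [hσ]
    simp only
    rw [Nat.one_le_div_iff (by omega)]
    rw [pow_succ] at h2
    omega
  have hσ2 : ∀ m ∈ X₁, 2 ^ Nat.log 2 (∑ i, m i) < 2 * q * σ (Nat.log 2 (∑ i, m i)) := by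
    intro m hm
    have h1 := hσ1 m hm
    rw [hσ] at h1 ⊢
    simp only at h1 ⊢
    set z := 2 ^ Nat.log 2 (∑ i, m i) with hz
    have h3 : z < q * (z / q + 1) := Nat.lt_mul_div_succ z (by omega)
    nlinarith
  have hmaps : ∀ m ∈ X₁, key m ∈ T := by
    intro m hm
    have h1 := hbig m hm
    have h2 := hpow m hm
    have h3 := hσ1 m hm
    have h4 := hσ2 m hm
    rw [hT, mem_product, hkey]
    simp only
    set e := Nat.log 2 (∑ i, m i) with he
    constructor
    · rw [mem_range, hL]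
      have h5 : ∑ i, m i ≤ (r + 1) * M := by
        calc ∑ i, m i ≤ ∑ _i : Fin r, M := Finset.sum_le_sum fun i _ => hXM m (mem_filter.1 hm).1 i
          _ = r * M := by rw [Finset.sum_const, card_univ, Fintype.card_fin, smul_eq_mul]
          _ ≤ _ := Nat.mul_le_mul_right _ (by omega)
      have h6 : r + 1 < 2 ^ (Nat.log 2 (r + 1) + 1) := Nat.lt_pow_succ_log_self (by norm_num) _
      have h7 : M < 2 ^ (Nat.log 2 M + 1) := Nat.lt_pow_succ_log_self (by norm_num) _
      have h8 : 2 ^ e < 2 ^ (Nat.log 2 (r + 1) + 1 + (Nat.log 2 M + 1)) := by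
        rw [pow_add]
        calc 2 ^ e ≤ ∑ i, m i := h2.1
          _ ≤ (r + 1) * M := h5
          _ < _ := Nat.mul_lt_mul'' h6 h7
      have h9 := (Nat.pow_lt_pow_iff_right (by norm_num : 1 < 2)).1 h8
      omega
    · rw [Fintype.mem_piFinset]
      intro i
      rw [mem_range]
      have h5 : m i ≤ ∑ i, m i := Finset.single_le_sum (fun _ _ => Nat.zero_le _) (mem_univ i)
      rw [Nat.div_lt_iff_lt_mul (by omega)]
      have h6 : m i < 4 * q * σ e := by
        have := h2.2
        rw [pow_succ] at this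
        nlinarith
      have h7 : (4 * q + 3) * σ e = 4 * q * σ e + 3 * σ e := by ring
      rw [h7]
      omega
  have hcard : X₁.card ≤ τ * T.card := by
    refine Finset.card_le_mul_card_image_of_maps_to hmaps τ fun t _ => ?_
    -- a window
    rcases (X₁.filter fun m => key m = t).eq_empty_or_nonempty with h1 | ⟨m₀, hm₀⟩
    · rw [h1, card_empty]; exact Nat.zero_le _
    set e := t.1 with he
    have hkeym : ∀ m ∈ X₁.filter fun m => key m = t, Nat.log 2 (∑ i, m i) = e ∧
        ∀ i, (m i + σ e - 1) / σ e = t.2 i := by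
      intro m hm
      have h2 := (mem_filter.1 hm).2
      rw [hkey] at h2
      simp only at h2
      have h3 : Nat.log 2 (∑ i, m i) = e := congrArg Prod.fst h2
      refine ⟨h3, fun i => ?_⟩
      have h4 := congrFun (congrArg Prod.snd h2) i
      simp only at h4
      rw [h3] at h4
      exact h4
    have hσe : 1 ≤ σ e := by
      have h2 := hσ1 m₀ (mem_filter.1 hm₀).1
      rwa [(hkeym m₀ hm₀).1] at h2
    set b : Fin r → ℕ := fun i => σ e * t.2 i with hb
    have hmb : ∀ m ∈ X₁.filter (fun m => key m = t), ∀ i, m i ≤ b i ∧ b i ≤ m i + (σ e - 1) := by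
      intro m hm i
      have h2 := (hkeym m hm).2 i
      rw [hb]
      simp only
      rw [← h2]
      have h3 := Nat.div_add_mod (m i + σ e - 1) (σ e)
      have h4 := Nat.mod_lt (m i + σ e - 1) (by omega : σ e > 0)
      constructor <;> omega
    refine hX b (r * (σ e - 1)) ?_ _ fun m hm => ⟨fun i => (hmb m hm i).1, ?_, (mem_filter.1 (mem_filter.1 hm).1).1⟩
    · -- the size of the window
      have h2 : ∑ i, m₀ i ≤ ∑ i, b i := Finset.sum_le_sum fun i _ => (hmb m₀ hm₀ i).1
      refine le_trans ?_ h2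
      have h3 := (hpow m₀ (mem_filter.1 hm₀).1).1
      rw [(hkeym m₀ hm₀).1] at h3
      refine le_trans ?_ h3
      have h4 : q * σ e ≤ 2 ^ e := Nat.mul_div_le _ _
      refine le_trans ?_ h4
      rw [hq, mul_assoc]
      apply Nat.mul_le_mul_left
      obtain ⟨x, hx⟩ : ∃ x, σ e = x + 1 := ⟨σ e - 1, by omega⟩
      rw [hx, Nat.add_sub_cancel]
      nlinarith
    · calc ∑ i, b i ≤ ∑ i, (m i + (σ e - 1)) := Finset.sum_le_sum fun i _ => (hmb m hm i).2
        _ = ∑ i, m i + r * (σ e - 1) := by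
            rw [Finset.sum_add_distrib, Finset.sum_const, card_univ, Fintype.card_fin, smul_eq_mul]
  have hTc : T.card = L * (4 * q + 3) ^ r := by
    rw [hT, card_product, card_range, Fintype.card_piFinset_const, card_range]
  rw [hsplit]
  have hL2 : L ≤ (Nat.log 2 (r + 1) + 2) * (Nat.log 2 M + 1) := by
    rw [hL]
    nlinarith [Nat.zero_le (Nat.log 2 (r + 1)), Nat.zero_le (Nat.log 2 M),
      Nat.zero_le (Nat.log 2 (r + 1) * Nat.log 2 M)]
  calc X₀.card + X₁.card ≤ (2 * q) ^ r + τ * (L * (4 * q + 3) ^ r) := by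
        rw [← hTc]
        exact Nat.add_le_add h0 hcard
    _ ≤ (2 * q) ^ r * (Nat.log 2 M + 1) +
        τ * (((Nat.log 2 (r + 1) + 2) * (Nat.log 2 M + 1)) * (4 * q + 3) ^ r) := by
        refine Nat.add_le_add (Nat.le_mul_of_pos_right _ (by omega)) ?_
        exact Nat.mul_le_mul_left _ (Nat.mul_le_mul_right _ hL2)
    _ = _ := by ring

open Classical in
/-- The number of exceptional vectors. -/
theorem count_exc (f : Fam r) (N d δ : ℕ) : ∃ C : ℕ, ∀ (υ : Type) [Fintype υ],
    Fintype.card υ = N → ∀ w : υ → ℂ, ∀ M : ℕ, 1 ≤ M →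
    ((Fintype.piFinset fun _ : Fin r => range (M + 1)).filter fun m => Exc d δ w (f.val m)).card ≤
      C * (Nat.log 2 M + 1) := by
  obtain ⟨Q, hQ, h⟩ := window f N d δ
  obtain ⟨C, hC⟩ := cover r Q (N + r + 2) hQ
  refine ⟨C, fun υ _ hυ w M hM => ?_⟩
  refine hC M _ hM (fun m hm i => ?_) fun b s hbs B hB => ?_
  · have := Fintype.mem_piFinset.1 (mem_filter.1 hm).1 i
    rw [mem_range] at this
    omega
  · exact h υ hυ w b s hbs B fun m hm => ⟨(hB m hm).1, (hB m hm).2.1, (mem_filter.1 (hB m hm).2.2).2⟩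

end Pool.Agent.R351.SU
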