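import Mathlib
import Pool.Agent.R351.SU.Cov

/-!
# Tuples
-/

set_option autoImplicit false

namespace Pool.Agent.R351.SU

open Finset Module

variable {r : ℕ}

theorem totalDegree_aeval_le {σ τ : Type} [Fintype σ] {R : Type} [CommRing R]
    (P : MvPolynomial σ R) (φ : σ → MvPolynomial τ R) (hφ : ∀ i, (φ i).totalDegree ≤ 1) :
    (MvPolynomial.aeval φ P).totalDegree ≤ P.totalDegree := by
  classical
  rw [MvPolynomial.aeval_def, MvPolynomial.eval₂_eq']
  refine MvPolynomial.totalDegree_finsetSum_le fun d hd => ?_
  refine (MvPolynomial.totalDegree_mul _ _).trans ?_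
  rw [MvPolynomial.algebraMap_eq, MvPolynomial.totalDegree_C, zero_add]
  refine (MvPolynomial.totalDegree_finsetProd _ _).trans ?_
  calc ∑ i, (φ i ^ d i).totalDegree ≤ ∑ i, d i := by
        refine Finset.sum_le_sum fun i _ => ?_
        refine (MvPolynomial.totalDegree_pow _ _).trans ?_
        calc d i * (φ i).totalDegree ≤ d i * 1 := Nat.mul_le_mul_left _ (hφ i)
          _ = d i := mul_one _
    _ = d.sum fun _ e => e := by rw [Finsupp.sum_fintype _ _ (fun _ => rfl)]
    _ ≤ P.totalDegree := MvPolynomial.le_totalDegree hd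

/-- the constants for the `j`-th number of a tuple -/
noncomputable def cs {k q : ℕ} (f : Fin k → Fam r) (w : Fin q → ℂ) (j : ℕ) (m : Fin k → Fin r → ℕ) :
    Option (Fin q ⊕ Fin k) → ℂ :=
  fun o => o.elim (2 * Real.pi * Complex.I)
    (Sum.elim w fun i => if (i : ℕ) < j then Complex.log ((f i).val (m i)) else 0)

open Classical in
/-- the exceptional tuples -/
noncomputable def exT {k q : ℕ} (f : Fin k → Fam r) (d δ : ℕ) (w : Fin q → ℂ) (M : ℕ) :
    Finset (Fin k → Fin r → ℕ) :=
  (Fintype.piFinset fun _ : Fin k => Fintype.piFinset fun _ : Fin r => range (M + 1)).filter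
    fun m => ∃ j : Fin k, Exc d δ (cs f w j m) ((f j).val (m j))

theorem exT_card {k q : ℕ} (f : Fin k → Fam r) (d δ : ℕ) : ∃ C : ℕ, ∀ (w : Fin q → ℂ) (M : ℕ), 1 ≤ M →
    (exT f d δ w M).card ≤ C * (Nat.log 2 M + 1) * (M + 1) ^ (r * (k - 1)) := by
  classical
  have h := fun j : Fin k => count_exc (f j) (q + k + 1) d δ
  choose C hC using h
  refine ⟨∑ j, C j, fun w M hM => ?_⟩
  set Bx := Fintype.piFinset fun _ : Fin k => Fintype.piFinset fun _ : Fin r => range (M + 1) with hBx
  have hj : ∀ j : Fin k, (Bx.filter fun m => Exc d δ (cs f w j m) ((f j).val (m j))).card ≤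
      C j * (Nat.log 2 M + 1) * (M + 1) ^ (r * (k - 1)) := by
    intro j
    set Y := Bx.filter fun m => Exc d δ (cs f w j m) ((f j).val (m j)) with hY
    set Z := Fintype.piFinset fun i : Fin k => if i = j then {(0 : Fin r → ℕ)} else
      Fintype.piFinset fun _ : Fin r => range (M + 1) with hZ
    have hmaps : ∀ m ∈ Y, Function.update m j 0 ∈ Z := by
      intro m hm
      rw [hZ, Fintype.mem_piFinset]
      intro i
      by_cases hi : i = j
      · subst hi
        rw [if_pos rfl, Function.update_self, mem_singleton]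
      · rw [if_neg hi, Function.update_of_ne hi]
        exact Fintype.mem_piFinset.1 (mem_filter.1 hm).1 i
    have h1 : Y.card ≤ (C j * (Nat.log 2 M + 1)) * Z.card := by
      refine Finset.card_le_mul_card_image_of_maps_to hmaps _ fun z hz => ?_
      refine le_trans ?_ (hC j (Option (Fin q ⊕ Fin k)) (by
        rw [Fintype.card_option, Fintype.card_sum, Fintype.card_fin, Fintype.card_fin]) (cs f w j z) M hM)
      refine Finset.card_le_card_of_injOn (fun m => m j) (fun m hm => ?_) (fun m hm m' hm' hmm => ?_)
      · have h2 := mem_filter.1 (mem_coe.1 hm)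
        have h3 := mem_filter.1 h2.1
        rw [mem_coe, mem_filter]
        refine ⟨Fintype.mem_piFinset.1 h3.1 j, ?_⟩
        have h4 : cs f w j z = cs f w j m := by
          funext o
          rcases o with _ | a | i
          · rfl
          · rfl
          · simp only [cs, Option.elim, Sum.elim_inr]
            by_cases hi : (i : ℕ) < j
            · have hij : i ≠ j := fun h => by rw [h] at hi; exact lt_irrefl _ hi
              rw [if_pos hi, if_pos hi, ← h2.2, Function.update_of_ne hij]
            · rw [if_neg hi, if_neg hi]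
        rw [h4]
        exact h3.2
      · have h2 := (mem_filter.1 (mem_coe.1 hm)).2
        have h3 := (mem_filter.1 (mem_coe.1 hm')).2
        funext i
        by_cases hi : i = j
        · subst hi; exact hmm
        · have h4 := congrFun (h2.trans h3.symm) i
          rwa [Function.update_of_ne hi, Function.update_of_ne hi] at h4
    have h2 : Z.card = (M + 1) ^ (r * (k - 1)) := by
      rw [hZ, Fintype.card_piFinset]
      have h3 : ∀ i : Fin k, (if i = j then {(0 : Fin r → ℕ)} else
          Fintype.piFinset fun _ : Fin r => range (M + 1)).card =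
          if i = j then 1 else (M + 1) ^ r := by
        intro i
        split_ifs
        · rw [card_singleton]
        · rw [Fintype.card_piFinset_const, card_range]
      rw [Finset.prod_congr rfl fun i _ => h3 i, Finset.prod_ite, Finset.prod_const_one, one_mul,
        Finset.prod_const, ← pow_mul]
      congr 2
      rw [Finset.filter_ne' (s := Finset.univ) (b := j)]
      rw [Finset.card_erase_of_mem (Finset.mem_univ j), Finset.card_univ, Fintype.card_fin]
    rw [h2] at h1
    exact h1
  have hsub : exT f d δ w M ⊆ (Finset.univ : Finset (Fin k)).biUnion fun j : Fin k =>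
      Bx.filter fun m => Exc d δ (cs f w j m) ((f j).val (m j)) := by
    intro m hm
    obtain ⟨h1, j, h2⟩ := mem_filter.1 hm
    exact mem_biUnion.2 ⟨j, mem_univ _, mem_filter.2 ⟨h1, h2⟩⟩
  refine (card_le_card hsub).trans (card_biUnion_le.trans ((Finset.sum_le_sum fun j _ => hj j).trans ?_))
  rw [Finset.sum_mul, Finset.sum_mul]

/-- **Main statement.** -/
theorem notExc {k q : ℕ} (f : Fin k → Fam r) (d δ : ℕ) (w : Fin q → ℂ) (M : ℕ) (m : Fin k → Fin r → ℕ)
    (hm : ∀ j i, m j i ≤ M) (hmX : m ∉ exT f d δ w M) (l : Fin k → ℂ)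
    (hl : ∀ j, Complex.exp (l j) = (f j).val (m j)) (K : IntermediateField ℚ ℂ)
    (hK : FiniteDimensional ℚ K) (hKd : finrank ℚ K ≤ d) (P : MvPolynomial (Fin q ⊕ Fin k) K)
    (hP : P.totalDegree ≤ δ) (hP0 : MvPolynomial.aeval (Sum.elim w l) P = 0) :
    MvPolynomial.aeval (Sum.elim (fun a => MvPolynomial.C (w a)) MvPolynomial.X) P =
      (0 : MvPolynomial (Fin k) ℂ) := by
  classical
  -- the branches
  have hn : ∀ i, ∃ n : ℤ, l i = Complex.log ((f i).val (m i)) + n * (2 * Real.pi * Complex.I) := by
    intro i
    have h0 : (f i).val (m i) ≠ 0 := by rw [← hl i]; exact Complex.exp_ne_zero _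
    have h1 : Complex.exp (l i) = Complex.exp (Complex.log ((f i).val (m i))) := by
      rw [hl i, Complex.exp_log h0]
    exact Complex.exp_eq_exp_iff_exists_int.1 h1
  choose n hn using hn
  set G : ℕ → MvPolynomial (Fin k) ℂ := fun j => MvPolynomial.aeval
    (Sum.elim (fun a => MvPolynomial.C (w a)) fun i : Fin k => if (i : ℕ) < j then MvPolynomial.C (l i)
      else MvPolynomial.X i) P with hG
  have hev : ∀ (j : ℕ) (x : Fin k → ℂ), MvPolynomial.eval x (G j) =
      MvPolynomial.aeval (Sum.elim w fun i : Fin k => if (i : ℕ) < j then l i else x i) P := by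
    intro j x
    rw [hG]
    simp only
    have h1 : (MvPolynomial.eval x : MvPolynomial (Fin k) ℂ →+* ℂ) =
        (MvPolynomial.aeval x : MvPolynomial (Fin k) ℂ →ₐ[ℂ] ℂ).toRingHom := by
      ext <;> simp
    rw [h1]
    show (MvPolynomial.aeval x : MvPolynomial (Fin k) ℂ →ₐ[ℂ] ℂ) _ = _
    rw [← AlgHom.restrictScalars_apply K (MvPolynomial.aeval x : MvPolynomial (Fin k) ℂ →ₐ[ℂ] ℂ),
      ← AlgHom.comp_apply, MvPolynomial.comp_aeval]
    congr 2
    funext i
    rcases i with a | i
    · simp
    · simp only [Sum.elim_inr]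
      split_ifs <;> simp
  have hstep : ∀ j, j < k → G (j + 1) = 0 → G j = 0 := by
    intro j hj h0
    by_contra hne
    -- rational values of the variables
    obtain ⟨x, hx⟩ : ∃ x : Fin k → ℚ, MvPolynomial.eval (fun i => ((x i : ℚ) : ℂ)) (G j) ≠ 0 := by
      by_contra hcon
      push Not at hcon
      apply hne
      have hinf : ∀ _i : Fin k, (Set.range (fun a : ℚ => (a : ℂ))).Infinite := fun _ =>
        Set.infinite_range_of_injective Rat.cast_injective
      refine MvPolynomial.funext_set (s := fun _ => Set.range (fun a : ℚ => (a : ℂ))) ?_ ?_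
      · exact hinf
      · intro y hy
        choose x hx using fun i => hy i (Set.mem_univ i)
        rw [map_zero, ← hcon x]
        congr 1
        congr 1
        funext i
        exact (hx i).symm
    set φ : Fin q ⊕ Fin k → MvPolynomial (Option (Fin q ⊕ Fin k) ⊕ Fin 1) K :=
      Sum.elim (fun a => MvPolynomial.X (Sum.inl (some (Sum.inl a)))) fun i : Fin k =>
        if (i : ℕ) < j then MvPolynomial.X (Sum.inl (some (Sum.inr i))) +
          MvPolynomial.C ((n i : ℤ) : K) * MvPolynomial.X (Sum.inl none)
        else if (i : ℕ) = j then MvPolynomial.X (Sum.inr 0) else MvPolynomial.C ((x i : ℚ) : K) with hφ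
    have hφd : ∀ i, (φ i).totalDegree ≤ 1 := by
      intro i
      rcases i with a | i
      · rw [hφ]
        simp only [Sum.elim_inl]
        exact (MvPolynomial.totalDegree_X _).le
      · rw [hφ]
        simp only [Sum.elim_inr]
        split_ifs
        · refine (MvPolynomial.totalDegree_add _ _).trans (max_le (MvPolynomial.totalDegree_X _).le ?_)
          refine (MvPolynomial.totalDegree_mul _ _).trans ?_
          rw [MvPolynomial.totalDegree_C, zero_add]
          exact (MvPolynomial.totalDegree_X _).le
        · exact (MvPolynomial.totalDegree_X _).le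
        · rw [MvPolynomial.totalDegree_C]; omega
    have hval : ∀ z : ℂ, MvPolynomial.aeval (Sum.elim (cs f w j m) fun _ => z) (MvPolynomial.aeval φ P) =
        MvPolynomial.aeval (Sum.elim w fun i : Fin k => if (i : ℕ) < j then l i else
          if (i : ℕ) = j then z else ((x i : ℚ) : ℂ)) P := by
      intro z
      rw [← AlgHom.comp_apply, MvPolynomial.comp_aeval]
      congr 2
      funext i
      rcases i with a | i
      · simp [hφ, cs]
      · simp only [hφ, Sum.elim_inr]
        split_ifs with h1 h2
        · rw [map_add, map_mul, MvPolynomial.aeval_X, MvPolynomial.aeval_X, MvPolynomial.aeval_C, hn i]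
          simp [cs, h1]
        · rw [MvPolynomial.aeval_X]
          rfl
        · rw [MvPolynomial.aeval_C]
          simp
    apply hmX
    rw [exT, mem_filter]
    refine ⟨?_, ⟨j, hj⟩, l ⟨j, hj⟩, hl _, K, hK, hKd, MvPolynomial.aeval φ P,
      (totalDegree_aeval_le P φ hφd).trans hP, ?_, ?_⟩
    · rw [Fintype.mem_piFinset]
      intro i
      rw [Fintype.mem_piFinset]
      intro a
      rw [mem_range]
      have := hm i a
      omega
    · show MvPolynomial.aeval (Sum.elim (cs f w j m) fun _ => l ⟨j, hj⟩) (MvPolynomial.aeval φ P) = 0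
      rw [hval]
      have h1 := hev (j + 1) (fun i => ((x i : ℚ) : ℂ))
      rw [h0, map_zero] at h1
      rw [h1]
      congr 2
      funext i
      rcases i with a | i
      · rfl
      · simp only [Sum.elim_inr]
        by_cases h2 : (i : ℕ) < j
        · rw [if_pos h2, if_pos (by omega)]
        · rw [if_neg h2]
          by_cases h3 : (i : ℕ) = j
          · rw [if_pos h3, if_pos (by omega)]
            congr 1
            exact Fin.ext h3.symm
          · rw [if_neg h3, if_neg (by omega)]
    · intro h1
      apply hx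
      have h2 := congrArg (MvPolynomial.eval fun _ : Fin 1 => ((x ⟨j, hj⟩ : ℚ) : ℂ)) h1
      rw [map_zero] at h2
      have h3 : MvPolynomial.eval (fun _ : Fin 1 => ((x ⟨j, hj⟩ : ℚ) : ℂ))
          (MvPolynomial.aeval (Sum.elim (fun o => MvPolynomial.C (cs f w j m o)) MvPolynomial.X)
            (MvPolynomial.aeval φ P)) =
          MvPolynomial.aeval (Sum.elim (cs f w j m) fun _ => ((x ⟨j, hj⟩ : ℚ) : ℂ))
            (MvPolynomial.aeval φ P) := by
        have h4 : ∀ y : Fin 1 → ℂ, (MvPolynomial.eval y : MvPolynomial (Fin 1) ℂ →+* ℂ) =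
            (MvPolynomial.aeval y : MvPolynomial (Fin 1) ℂ →ₐ[ℂ] ℂ).toRingHom := by
          intro y
          ext <;> simp
        rw [h4]
        show (MvPolynomial.aeval (fun _ : Fin 1 => ((x ⟨j, hj⟩ : ℚ) : ℂ)) :
          MvPolynomial (Fin 1) ℂ →ₐ[ℂ] ℂ) _ = _
        rw [← AlgHom.restrictScalars_apply K (MvPolynomial.aeval _ : MvPolynomial (Fin 1) ℂ →ₐ[ℂ] ℂ),
          ← AlgHom.comp_apply, MvPolynomial.comp_aeval]
        congr 2
        funext i
        rcases i with a | i
        · simp
        · simp
      have h2' : MvPolynomial.eval (fun _ : Fin 1 => ((x ⟨j, hj⟩ : ℚ) : ℂ))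
          (MvPolynomial.aeval (Sum.elim (fun o => MvPolynomial.C (cs f w j m o)) MvPolynomial.X)
            (MvPolynomial.aeval φ P)) = 0 := h2
      rw [h3, hval] at h2'
      rw [hev, ← h2']
      congr 2
      funext i
      rcases i with a | i
      · rfl
      · simp only [Sum.elim_inr]
        by_cases h5 : (i : ℕ) < j
        · rw [if_pos h5, if_pos h5]
        · rw [if_neg h5, if_neg h5]
          by_cases h6 : (i : ℕ) = j
          · rw [if_pos h6]
            have h7 : i = ⟨j, hj⟩ := Fin.ext h6
            rw [h7]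
          · rw [if_neg h6]
  have hk : G k = 0 := by
    apply MvPolynomial.funext
    intro x
    rw [hev, map_zero, ← hP0]
    congr 2
    funext i
    rcases i with a | i
    · rfl
    · simp only [Sum.elim_inr]
      rw [if_pos i.2]
  have hall : ∀ j, j ≤ k → G (k - j) = 0 := by
    intro j
    induction j with
    | zero => intro _; exact hk
    | succ j ih =>
      intro hj
      apply hstep _ (by omega)
      have h1 : k - (j + 1) + 1 = k - j := by omega
      rw [h1]
      exact ih (by omega)
  have h0 := hall k le_rfl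
  rw [Nat.sub_self] at h0
  rw [← h0, hG]
  simp only [not_lt_zero, if_false]

end Pool.Agent.R351.SU
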