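import Mathlib
import Pool.Agent.R351.SU.Tpl

/-!
# Tuples of numbers from arbitrary families
-/

set_option autoImplicit false

namespace Pool.Agent.R351.SU

open Finset Module

variable {ι : Type}

/-- the constants for the `j`-th number of a tuple -/
noncomputable def csG {k q : ℕ} (f : Fin k → ι → ℂ) (w : Fin q → ℂ) (j : ℕ) (m : Fin k → ι) :
    Option (Fin q ⊕ Fin k) → ℂ :=
  fun o => o.elim (2 * Real.pi * Complex.I)
    (Sum.elim w fun i => if (i : ℕ) < j then Complex.log (f i (m i)) else 0)

open Classical in
/-- the exceptional tuples -/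
noncomputable def exG {k q : ℕ} (f : Fin k → ι → ℂ) (d δ : ℕ) (w : Fin q → ℂ)
    (Nn : Fin k → Finset ι) : Finset (Fin k → ι) :=
  (Fintype.piFinset Nn).filter fun m => ∃ j : Fin k, Exc d δ (csG f w j m) (f j (m j))

theorem exG_card {k q : ℕ} (f : Fin k → ι → ℂ) (d δ : ℕ) (w : Fin q → ℂ) (Nn : Fin k → Finset ι)
    (N R : ℕ) (hN : ∀ j, (Nn j).card ≤ N)
    (hR : ∀ (j : Fin k) (w' : Option (Fin q ⊕ Fin k) → ℂ), ∀ B : Finset ι,
      (∀ x ∈ B, x ∈ Nn j ∧ Exc d δ w' (f j x)) → B.card ≤ R) :
    (exG f d δ w Nn).card ≤ k * R * N ^ (k - 1) := by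
  classical
  rcases (exG f d δ w Nn).eq_empty_or_nonempty with h0 | ⟨m₀, hm₀⟩
  · rw [h0, card_empty]; exact Nat.zero_le _
  have hj : ∀ j : Fin k, ((Fintype.piFinset Nn).filter fun m => Exc d δ (csG f w j m) (f j (m j))).card ≤
      R * N ^ (k - 1) := by
    intro j
    set Y := (Fintype.piFinset Nn).filter fun m => Exc d δ (csG f w j m) (f j (m j)) with hY
    set Z := Fintype.piFinset fun i : Fin k => if i = j then {m₀ j} else Nn i with hZ
    have hmaps : ∀ m ∈ Y, Function.update m j (m₀ j) ∈ Z := by
      intro m hm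
      rw [hZ, Fintype.mem_piFinset]
      intro i
      by_cases hi : i = j
      · subst hi
        rw [if_pos rfl, Function.update_self, mem_singleton]
      · rw [if_neg hi, Function.update_of_ne hi]
        exact Fintype.mem_piFinset.1 (mem_filter.1 hm).1 i
    have h1 : Y.card ≤ R * Z.card := by
      refine Finset.card_le_mul_card_image_of_maps_to hmaps _ fun z hz => ?_
      have hfib : ∀ m ∈ Y.filter (fun m => Function.update m j (m₀ j) = z),
          m j ∈ Nn j ∧ Exc d δ (csG f w j z) (f j (m j)) := by
        intro m hm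
        have h2 := mem_filter.1 hm
        have h3 := mem_filter.1 h2.1
        refine ⟨Fintype.mem_piFinset.1 h3.1 j, ?_⟩
        have h4 : csG f w j z = csG f w j m := by
          funext o
          rcases o with _ | a | i
          · rfl
          · rfl
          · simp only [csG, Option.elim, Sum.elim_inr]
            by_cases hi : (i : ℕ) < j
            · have hij : i ≠ j := fun h => by rw [h] at hi; exact lt_irrefl _ hi
              rw [if_pos hi, if_pos hi, ← h2.2, Function.update_of_ne hij]
            · rw [if_neg hi, if_neg hi]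
        rw [h4]
        exact h3.2
      refine le_trans ?_ (hR j (csG f w j z)
        ((Y.filter (fun m => Function.update m j (m₀ j) = z)).image fun m => m j) (by
          intro x hx
          obtain ⟨m, hm, rfl⟩ := mem_image.1 hx
          exact hfib m hm))
      rw [Finset.card_image_of_injOn]
      intro m hm m' hm' hmm
      have h2 := (mem_filter.1 (mem_coe.1 hm)).2
      have h3 := (mem_filter.1 (mem_coe.1 hm')).2
      funext i
      by_cases hi : i = j
      · subst hi; exact hmm
      · have h4 := congrFun (h2.trans h3.symm) i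
        rwa [Function.update_of_ne hi, Function.update_of_ne hi] at h4
    have h2 : Z.card ≤ N ^ (k - 1) := by
      rw [hZ, Fintype.card_piFinset]
      have h3 : ∀ i : Fin k, (if i = j then {m₀ j} else Nn i).card ≤ if i = j then 1 else N := by
        intro i
        split_ifs
        · rw [card_singleton]
        · exact hN i
      refine (Finset.prod_le_prod' fun i _ => h3 i).trans (le_of_eq ?_)
      rw [Finset.prod_ite, Finset.prod_const_one, one_mul, Finset.prod_const]
      congr 2
      rw [Finset.filter_ne' (s := Finset.univ) (b := j)]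
      rw [Finset.card_erase_of_mem (Finset.mem_univ j), Finset.card_univ, Fintype.card_fin]
    exact h1.trans (Nat.mul_le_mul_left _ h2)
  have hsub : exG f d δ w Nn ⊆ (Finset.univ : Finset (Fin k)).biUnion fun j : Fin k =>
      (Fintype.piFinset Nn).filter fun m => Exc d δ (csG f w j m) (f j (m j)) := by
    intro m hm
    obtain ⟨h1, j, h2⟩ := mem_filter.1 hm
    exact mem_biUnion.2 ⟨j, mem_univ _, mem_filter.2 ⟨h1, h2⟩⟩
  refine (card_le_card hsub).trans (card_biUnion_le.trans ((Finset.sum_le_sum fun j _ => hj j).trans ?_))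
  rw [Finset.sum_const, Finset.card_univ, Fintype.card_fin, smul_eq_mul, mul_assoc]

/-- **Main statement.** -/
theorem notExcG {k q : ℕ} (f : Fin k → ι → ℂ) (d δ : ℕ) (w : Fin q → ℂ) (Nn : Fin k → Finset ι)
    (m : Fin k → ι) (hm : ∀ j, m j ∈ Nn j) (hmX : m ∉ exG f d δ w Nn) (l : Fin k → ℂ)
    (hl : ∀ j, Complex.exp (l j) = f j (m j)) (K : IntermediateField ℚ ℂ)
    (hK : FiniteDimensional ℚ K) (hKd : finrank ℚ K ≤ d) (P : MvPolynomial (Fin q ⊕ Fin k) K)
    (hP : P.totalDegree ≤ δ) (hP0 : MvPolynomial.aeval (Sum.elim w l) P = 0) :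
    MvPolynomial.aeval (Sum.elim (fun a => MvPolynomial.C (w a)) MvPolynomial.X) P =
      (0 : MvPolynomial (Fin k) ℂ) := by
  classical
  -- the branches
  have hn : ∀ i, ∃ n : ℤ, l i = Complex.log (f i (m i)) + n * (2 * Real.pi * Complex.I) := by
    intro i
    have h0 : f i (m i) ≠ 0 := by rw [← hl i]; exact Complex.exp_ne_zero _
    have h1 : Complex.exp (l i) = Complex.exp (Complex.log (f i (m i))) := by
      rw [hl i, Complex.exp_log h0]
    exact Complex.exp_eq_exp_iff_exists_int.1 h1
  choose n hn using hn
  set G : ℕ → MvPolynomial (Fin k) ℂ := fun j => MvPolynomial.aeval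
    (Sum.elim (fun a => MvPolynomial.C (w a)) fun i : Fin k => if (i : ℕ) < j then MvPolynomial.C (l i)
      else MvPolynomial.X i) P with hG
  have hev : ∀ (j : ℕ) (x : Fin k → ℂ), MvPolynomial.eval x (G j) =
      MvPolynomial.aeval (Sum.elim w fun i : Fin k => if (i : ℕ) < j then l i else x i) P := by
    intro j x
    rw [hG]
    simp only
    have h1 : (MvPolynomial.eval x : MvPolynomial (Fin k) ℂ →+* ℂ) =
        (MvPolynomial.aeval x : MvPolynomial (Fin k) ℂ →ₐ[ℂ] ℂ).toRingHom := by
      ext <;> simp
    rw [h1]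
    show (MvPolynomial.aeval x : MvPolynomial (Fin k) ℂ →ₐ[ℂ] ℂ) _ = _
    rw [← AlgHom.restrictScalars_apply K (MvPolynomial.aeval x : MvPolynomial (Fin k) ℂ →ₐ[ℂ] ℂ),
      ← AlgHom.comp_apply, MvPolynomial.comp_aeval]
    congr 2
    funext i
    rcases i with a | i
    · simp
    · simp only [Sum.elim_inr]
      split_ifs <;> simp
  have hstep : ∀ j, j < k → G (j + 1) = 0 → G j = 0 := by
    intro j hj h0
    by_contra hne
    -- rational values of the variables
    obtain ⟨x, hx⟩ : ∃ x : Fin k → ℚ, MvPolynomial.eval (fun i => ((x i : ℚ) : ℂ)) (G j) ≠ 0 := by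
      by_contra hcon
      push Not at hcon
      apply hne
      have hinf : ∀ _i : Fin k, (Set.range (fun a : ℚ => (a : ℂ))).Infinite := fun _ =>
        Set.infinite_range_of_injective Rat.cast_injective
      refine MvPolynomial.funext_set (s := fun _ => Set.range (fun a : ℚ => (a : ℂ))) ?_ ?_
      · exact hinf
      · intro y hy
        choose x hx using fun i => hy i (Set.mem_univ i)
        rw [map_zero, ← hcon x]
        congr 1
        congr 1
        funext i
        exact (hx i).symm
    set φ : Fin q ⊕ Fin k → MvPolynomial (Option (Fin q ⊕ Fin k) ⊕ Fin 1) K :=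
      Sum.elim (fun a => MvPolynomial.X (Sum.inl (some (Sum.inl a)))) fun i : Fin k =>
        if (i : ℕ) < j then MvPolynomial.X (Sum.inl (some (Sum.inr i))) +
          MvPolynomial.C ((n i : ℤ) : K) * MvPolynomial.X (Sum.inl none)
        else if (i : ℕ) = j then MvPolynomial.X (Sum.inr 0) else MvPolynomial.C ((x i : ℚ) : K) with hφ
    have hφd : ∀ i, (φ i).totalDegree ≤ 1 := by
      intro i
      rcases i with a | i
      · rw [hφ]
        simp only [Sum.elim_inl]
        exact (MvPolynomial.totalDegree_X _).le
      · rw [hφ]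
        simp only [Sum.elim_inr]
        split_ifs
        · refine (MvPolynomial.totalDegree_add _ _).trans (max_le (MvPolynomial.totalDegree_X _).le ?_)
          refine (MvPolynomial.totalDegree_mul _ _).trans ?_
          rw [MvPolynomial.totalDegree_C, zero_add]
          exact (MvPolynomial.totalDegree_X _).le
        · exact (MvPolynomial.totalDegree_X _).le
        · rw [MvPolynomial.totalDegree_C]; omega
    have hval : ∀ z : ℂ, MvPolynomial.aeval (Sum.elim (csG f w j m) fun _ => z) (MvPolynomial.aeval φ P) =
        MvPolynomial.aeval (Sum.elim w fun i : Fin k => if (i : ℕ) < j then l i else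
          if (i : ℕ) = j then z else ((x i : ℚ) : ℂ)) P := by
      intro z
      rw [← AlgHom.comp_apply, MvPolynomial.comp_aeval]
      congr 2
      funext i
      rcases i with a | i
      · simp [hφ, csG]
      · simp only [hφ, Sum.elim_inr]
        split_ifs with h1 h2
        · rw [map_add, map_mul, MvPolynomial.aeval_X, MvPolynomial.aeval_X, MvPolynomial.aeval_C, hn i]
          simp [csG, h1]
        · rw [MvPolynomial.aeval_X]
          rfl
        · rw [MvPolynomial.aeval_C]
          simp
    apply hmX
    rw [exG, mem_filter]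
    refine ⟨?_, ⟨j, hj⟩, l ⟨j, hj⟩, hl _, K, hK, hKd, MvPolynomial.aeval φ P,
      (totalDegree_aeval_le P φ hφd).trans hP, ?_, ?_⟩
    · rw [Fintype.mem_piFinset]
      exact hm
    · show MvPolynomial.aeval (Sum.elim (csG f w j m) fun _ => l ⟨j, hj⟩) (MvPolynomial.aeval φ P) = 0
      rw [hval]
      have h1 := hev (j + 1) (fun i => ((x i : ℚ) : ℂ))
      rw [h0, map_zero] at h1
      rw [h1]
      congr 2
      funext i
      rcases i with a | i
      · rfl
      · simp only [Sum.elim_inr]
        by_cases h2 : (i : ℕ) < j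
        · rw [if_pos h2, if_pos (by omega)]
        · rw [if_neg h2]
          by_cases h3 : (i : ℕ) = j
          · rw [if_pos h3, if_pos (by omega)]
            congr 1
            exact Fin.ext h3.symm
          · rw [if_neg h3, if_neg (by omega)]
    · intro h1
      apply hx
      have h2 := congrArg (MvPolynomial.eval fun _ : Fin 1 => ((x ⟨j, hj⟩ : ℚ) : ℂ)) h1
      rw [map_zero] at h2
      have h3 : MvPolynomial.eval (fun _ : Fin 1 => ((x ⟨j, hj⟩ : ℚ) : ℂ))
          (MvPolynomial.aeval (Sum.elim (fun o => MvPolynomial.C (csG f w j m o)) MvPolynomial.X)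
            (MvPolynomial.aeval φ P)) =
          MvPolynomial.aeval (Sum.elim (csG f w j m) fun _ => ((x ⟨j, hj⟩ : ℚ) : ℂ))
            (MvPolynomial.aeval φ P) := by
        have h4 : ∀ y : Fin 1 → ℂ, (MvPolynomial.eval y : MvPolynomial (Fin 1) ℂ →+* ℂ) =
            (MvPolynomial.aeval y : MvPolynomial (Fin 1) ℂ →ₐ[ℂ] ℂ).toRingHom := by
          intro y
          ext <;> simp
        rw [h4]
        show (MvPolynomial.aeval (fun _ : Fin 1 => ((x ⟨j, hj⟩ : ℚ) : ℂ)) :
          MvPolynomial (Fin 1) ℂ →ₐ[ℂ] ℂ) _ = _
        rw [← AlgHom.restrictScalars_apply K (MvPolynomial.aeval _ : MvPolynomial (Fin 1) ℂ →ₐ[ℂ] ℂ),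
          ← AlgHom.comp_apply, MvPolynomial.comp_aeval]
        congr 2
        funext i
        rcases i with a | i
        · simp
        · simp
      have h2' : MvPolynomial.eval (fun _ : Fin 1 => ((x ⟨j, hj⟩ : ℚ) : ℂ))
          (MvPolynomial.aeval (Sum.elim (fun o => MvPolynomial.C (csG f w j m o)) MvPolynomial.X)
            (MvPolynomial.aeval φ P)) = 0 := h2
      rw [h3, hval] at h2'
      rw [hev, ← h2']
      congr 2
      funext i
      rcases i with a | i
      · rfl
      · simp only [Sum.elim_inr]
        by_cases h5 : (i : ℕ) < j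
        · rw [if_pos h5, if_pos h5]
        · rw [if_neg h5, if_neg h5]
          by_cases h6 : (i : ℕ) = j
          · rw [if_pos h6]
            have h7 : i = ⟨j, hj⟩ := Fin.ext h6
            rw [h7]
          · rw [if_neg h6]
  have hk : G k = 0 := by
    apply MvPolynomial.funext
    intro x
    rw [hev, map_zero, ← hP0]
    congr 2
    funext i
    rcases i with a | i
    · rfl
    · simp only [Sum.elim_inr]
      rw [if_pos i.2]
  have hall : ∀ j, j ≤ k → G (k - j) = 0 := by
    intro j
    induction j with
    | zero => intro _; exact hk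
    | succ j ih =>
      intro hj
      apply hstep _ (by omega)
      have h1 : k - (j + 1) + 1 = k - j := by omega
      rw [h1]
      exact ih (by omega)
  have h0 := hall k le_rfl
  rw [Nat.sub_self] at h0
  rw [← h0, hG]
  simp only [not_lt_zero, if_false]

end Pool.Agent.R351.SU
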