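import Mathlib
import Pool.Agent.R351.SU.Wdw

/-!
# Integers which are close to a product of powers of given primes: multiplicative windows
-/

set_option autoImplicit false

namespace Pool.Agent.R351.SU

open Module Pool.Agent.Y916.Al Pool.Agent.Y916.Om

/-- the constants -/
noncomputable def cst' {υ : Type} {r : ℕ} (p : Fin r → ℕ) (w : υ → ℂ) : υ ⊕ Option (Fin r) → ℂ :=
  Sum.elim w fun o => o.elim (2 * Real.pi * Complex.I) fun i => Complex.log (p i)

/-- a window -/
theorem near_window (N r d δ : ℕ) : ∃ E : ℕ, 1 ≤ E ∧ ∀ (υ : Type) [Fintype υ], Fintype.card υ = N →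
    ∀ (w : υ → ℂ) (p : Fin r → ℕ), (∀ i, 2 ≤ p i) → ∀ (b : Fin r → ℕ) (H : ℕ),
    (H + 2) ^ E ≤ ∏ i, p i ^ b i →
    ∀ B : Finset ℕ, (∀ n ∈ B, ∃ m : Fin r → ℕ, m ≤ b ∧ 0 < n ∧ (∀ i, n.Coprime (p i)) ∧
      (n : ℤ) ≠ ∏ i, (p i : ℤ) ^ m i ∧
      |(n : ℤ) - ∏ i, (p i : ℤ) ^ m i| * ∏ i, (p i : ℤ) ^ (b i - m i) ≤ H ∧ Exc d δ w (n : ℂ)) →
      B.card ≤ N + r + 1 := by
  classical
  set τ := N + r + 1 with hτ
  obtain ⟨E, hE1, hE⟩ := windowP 1 (max d 1) δ τ 1 1 1 1
  refine ⟨E, hE1, fun υ _ hυ w p hp b H hH B hB => ?_⟩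
  set t : ℕ := ∏ i, p i ^ b i with ht
  have hp0 : ∀ i, (p i : ℂ) ≠ 0 := fun i => by
    have := hp i
    exact_mod_cast (show p i ≠ 0 by omega)
  have ht1 : 1 ≤ t := Finset.prod_pos fun i _ => Nat.pow_pos (by have := hp i; omega)
  have htC : (t : ℂ) ≠ 0 := by exact_mod_cast (show t ≠ 0 by omega)
  have hnorm : ‖(t : ℂ)‖ = t := Complex.norm_natCast t
  have hHt : Ht 1 1 (t : ℂ) := by
    refine ⟨Polynomial.X - Polynomial.C (t : ℤ), Polynomial.X_sub_C_ne_zero _, ?_, fun j => ?_, ?_⟩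
    · rw [Polynomial.natDegree_X_sub_C]
    · rw [hnorm, pow_one, Polynomial.coeff_sub, Polynomial.coeff_X, Polynomial.coeff_C]
      have h1 : (1 : ℝ) ≤ t := by exact_mod_cast ht1
      split_ifs with h2 h3 h3
      · omega
      · simpa using h1
      · simp
      · simp
    · rw [map_sub, Polynomial.aeval_X, Polynomial.aeval_C]
      simp
  obtain ⟨S, hS, h⟩ := hE H (t : ℂ) (by
    rw [hnorm]
    exact_mod_cast hH) hHt (υ ⊕ Option (Fin r)) (cst' p w) Finset.univ
    (by rw [Finset.card_univ, Fintype.card_sum, Fintype.card_option, Fintype.card_fin, hυ, hτ]; ring)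
    (Dom.univ _)
  refine le_trans ?_ hS
  choose! m hm using hB
  set bt : ℕ → ℤ := fun n => ((n : ℤ) - ∏ i, (p i : ℤ) ^ m n i) * ∏ i, (p i : ℤ) ^ (b i - m n i) with hbt
  have hsp : ∀ n ∈ B, (∏ i, (p i : ℂ) ^ m n i) * ∏ i, (p i : ℂ) ^ (b i - m n i) = t := by
    intro n hn
    rw [← Finset.prod_mul_distrib, ht]
    push_cast
    refine Finset.prod_congr rfl fun i _ => ?_
    rw [← pow_add, Nat.add_sub_cancel' ((hm n hn).1 i)]
  have hs0 : ∀ n, (∏ i, (p i : ℂ) ^ m n i) ≠ 0 := fun n =>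
    Finset.prod_ne_zero_iff.2 fun i _ => pow_ne_zero _ (hp0 i)
  have hd0 : ∀ n, (∏ i, (p i : ℂ) ^ (b i - m n i)) ≠ 0 := fun n =>
    Finset.prod_ne_zero_iff.2 fun i _ => pow_ne_zero _ (hp0 i)
  have hbt2 : ∀ n ∈ B, 1 + (bt n : ℂ) / t = (n : ℂ) / ∏ i, (p i : ℂ) ^ m n i := by
    intro n hn
    have h1 := hsp n hn
    have h2 := hs0 n
    have h3 : (bt n : ℂ) = ((n : ℂ) - ∏ i, (p i : ℂ) ^ m n i) * ∏ i, (p i : ℂ) ^ (b i - m n i) := by
      rw [hbt]
      push_cast
      ring
    rw [h3, ← h1, mul_div_mul_right _ _ (hd0 n)]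
    field_simp
    ring
  refine Finset.card_le_card_of_injOn (fun n => (bt n : ℂ)) (fun n hn => ?_) (fun n hn n' hn' hnn => ?_)
  · by_contra hnS
    obtain ⟨hmb, hn0, hcop, hne, hsize, l, hl, K, hK, hKd, P, hPd, hP0, hP1⟩ := hm n hn
    have hn0C : (n : ℂ) ≠ 0 := by exact_mod_cast (show n ≠ 0 by omega)
    have h10 : (n : ℂ) / ∏ i, (p i : ℂ) ^ m n i ≠ 0 := div_ne_zero hn0C (hs0 n)
    obtain ⟨z, hz⟩ : ∃ z : ℤ, l = Complex.log (1 + (bt n : ℂ) / t) +
        ∑ i, (m n i : ℂ) * Complex.log (p i) + z * (2 * Real.pi * Complex.I) := by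
      have h2 : Complex.exp l = Complex.exp (Complex.log (1 + (bt n : ℂ) / t) +
          ∑ i, (m n i : ℂ) * Complex.log (p i)) := by
        rw [hl, Complex.exp_add, hbt2 n hn, Complex.exp_log h10, Complex.exp_sum]
        have h3 : ∏ i, Complex.exp ((m n i : ℂ) * Complex.log (p i)) = ∏ i, (p i : ℂ) ^ m n i := by
          refine Finset.prod_congr rfl fun i _ => ?_
          rw [Complex.exp_nat_mul, Complex.exp_log (hp0 i)]
        rw [h3, div_mul_cancel₀ _ (hs0 n)]
      exact Complex.exp_eq_exp_iff_exists_int.1 h2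
    have hspan : l - (1 : K) * Complex.log (1 + (bt n : ℂ) / t) ∈
        Submodule.span K (insert 1 (Set.range (cst' p w))) := by
      have hin : ∀ x, cst' p w x ∈ Submodule.span K (insert 1 (Set.range (cst' p w))) :=
        fun x => Submodule.subset_span (Or.inr ⟨x, rfl⟩)
      have h3 : l - (1 : K) * Complex.log (1 + (bt n : ℂ) / t) =
          ∑ i, (m n i : K) • cst' p w (Sum.inr (some i)) + (z : K) • cst' p w (Sum.inr none) := by
        rw [hz]
        simp only [cst', Sum.elim_inr, Option.elim]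
        have h4 : ∀ i, ((m n i : K) • Complex.log (p i) : ℂ) = (m n i : ℂ) * Complex.log (p i) := by
          intro i
          rw [Algebra.smul_def]
          simp
        have h5 : ((z : K) • (2 * Real.pi * Complex.I) : ℂ) = (z : ℂ) * (2 * Real.pi * Complex.I) := by
          rw [Algebra.smul_def]
          simp
        simp only [h4, h5]
        push_cast
        ring
      rw [h3]
      exact Submodule.add_mem _ (Submodule.sum_mem _ fun i _ =>
        Submodule.smul_mem _ _ (hin _)) (Submodule.smul_mem _ _ (hin _))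
    have hbH : |bt n| ≤ (H : ℤ) := by
      rw [hbt]
      simp only
      rw [abs_mul]
      have h6 : |∏ i, (p i : ℤ) ^ (b i - m n i)| = ∏ i, (p i : ℤ) ^ (b i - m n i) :=
        abs_of_nonneg (Finset.prod_nonneg fun i _ => by positivity)
      rw [h6]
      exact hsize
    have hbt0 : bt n ≠ 0 := by
      rw [hbt]
      simp only
      refine mul_ne_zero (sub_ne_zero.2 hne) (Finset.prod_ne_zero_iff.2 fun i _ => pow_ne_zero _ ?_)
      have := hp i
      exact_mod_cast (show p i ≠ 0 by omega)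
    have hAdm : Pool.Agent.Y916.Ari.Adm (max d 1) H (bt n : ℂ) := by
      refine ⟨Polynomial.X - Polynomial.C (bt n), Polynomial.X_sub_C_ne_zero _, ?_, fun j => ?_, ?_⟩
      · rw [Polynomial.natDegree_X_sub_C]
        exact le_max_right _ _
      · rw [Polynomial.coeff_sub, Polynomial.coeff_X, Polynomial.coeff_C]
        have h1 : 1 ≤ |bt n| := Int.one_le_abs hbt0
        split_ifs with h2 h3 h3
        · omega
        · rw [sub_zero, abs_one]; exact h1.trans hbH
        · rw [zero_sub, abs_neg]; exact hbH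
        · rw [sub_zero, abs_zero]; exact Int.natCast_nonneg _
      · rw [map_sub, Polynomial.aeval_X, Polynomial.aeval_C]
        simp
    have h7 := h (fun _ => (bt n : ℂ)) (fun a b _ => Subsingleton.elim a b) (fun _ => ⟨hnS, by
      exact_mod_cast hbt0, hAdm⟩) K hK
      (hKd.trans (le_max_left _ _)) (fun _ => l) (fun _ => ⟨1, one_ne_zero, hspan⟩)
      (MvPolynomial.rename (Sum.map Sum.inl id) P) ((MvPolynomial.totalDegree_rename_le _ _).trans hPd)
      (by
        rw [MvPolynomial.aeval_rename, ← hP0]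
        congr 2
        funext x
        rcases x with x | x <;> rfl)
    rw [MvPolynomial.aeval_rename] at h7
    apply hP1
    rw [← h7]
    congr 2
    funext x
    rcases x with x | x <;> rfl
  · -- injectivity
    have h0 : (bt n : ℂ) = (bt n' : ℂ) := hnn
    have h1 := hbt2 n (Finset.mem_coe.1 hn)
    have h2 := hbt2 n' (Finset.mem_coe.1 hn')
    rw [h0, h2, div_eq_div_iff (hs0 n') (hs0 n)] at h1
    have h3 : n' * ∏ i, p i ^ m n i = n * ∏ i, p i ^ m n' i := by exact_mod_cast h1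
    have hc : ∀ x ∈ B, ∀ y, x.Coprime (∏ i, p i ^ m y i) := by
      intro x hx y
      exact Nat.Coprime.prod_right fun i _ => ((hm x hx).2.2.1 i).pow_right _
    have h4 : n ∣ n' := by
      have h5 : n ∣ n' * ∏ i, p i ^ m n i := by rw [h3]; exact Dvd.intro _ rfl
      exact (hc n (Finset.mem_coe.1 hn) n).dvd_of_dvd_mul_right h5
    have h6 : n' ∣ n := by
      have h5 : n' ∣ n * ∏ i, p i ^ m n' i := by rw [← h3]; exact Dvd.intro _ rfl
      exact (hc n' (Finset.mem_coe.1 hn') n').dvd_of_dvd_mul_right h5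
    exact Nat.dvd_antisymm h4 h6

end Pool.Agent.R351.SU
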