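import Mathlib
import Pool.Agent.R351.SU.Near

/-!
# The number of exceptional integers up to `X` near products of powers of `r` numbers
-/

set_option autoImplicit false

namespace Pool.Agent.R351.SU

open Finset

theorem loglog16 {X : ℕ} (hX : 16 ≤ X) : 1 ≤ Real.log (Real.log X) := by
  have h1 : (16 : ℝ) ≤ X := by exact_mod_cast hX
  have h2 : Real.log 16 ≤ Real.log X := Real.log_le_log (by norm_num) h1
  have h3 : Real.log 16 = 4 * Real.log 2 := by
    rw [show (16 : ℝ) = 2 ^ 4 by norm_num, Real.log_pow]; norm_num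
  have h4 := Real.log_two_gt_d9
  have h5 : (2.77 : ℝ) ≤ Real.log X := by rw [h3] at h2; linarith
  have h6 : Real.exp 1 ≤ Real.log X := by
    have := Real.exp_one_lt_d9
    linarith
  rw [Real.le_log_iff_exp_le (by linarith)]
  exact h6

theorem near_count (N r d δ : ℕ) : ∃ C : ℕ, 0 < C ∧ ∀ (υ : Type) [Fintype υ], Fintype.card υ = N →
    ∀ (w : υ → ℂ) (p : Fin r → ℕ), (∀ i, 2 ≤ p i) → ∀ X : ℕ, 16 ≤ X → ∀ B : Finset ℕ,
    (∀ n ∈ B, 0 < n ∧ n ≤ X ∧ (∀ i, n.Coprime (p i)) ∧
      (∃ m : Fin r → ℕ, (n : ℤ) ≠ ∏ i, (p i : ℤ) ^ m i ∧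
        ((n : ℤ) - ∏ i, (p i : ℤ) ^ m i).natAbs ^ C ≤ n) ∧ Exc d δ w (n : ℂ)) →
      (B.card : ℝ) ≤ C * Real.log (Real.log X) := by
  classical
  obtain ⟨E, hE1, hE⟩ := near_window N r d δ
  set K : ℕ := 2 * E * (r + 1) with hK
  have hK1 : 1 ≤ K := by rw [hK]; exact Nat.mul_pos (by omega) (by omega)
  set n₀ : ℕ := ⌈2 * Real.exp (8 * E)⌉₊ + 4 with hn₀
  set C : ℕ := 4 * K + n₀ + 4 * ((4 * K + 1) ^ r * (N + r + 1)) + 2 with hC
  refine ⟨C, by omega, fun υ _ hυ w p hp X hX B hB => ?_⟩
  have hLL := loglog16 hX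
  set LL := Real.log (Real.log X) with hLLd
  have hX0 : (16 : ℝ) ≤ X := by exact_mod_cast hX
  have hlogp : ∀ i, 0 < Real.log (p i) := fun i => by
    apply Real.log_pos
    have := hp i
    exact_mod_cast (show 1 < p i by omega)
  have hpR : ∀ i, (0 : ℝ) < p i := fun i => by
    have := hp i
    exact_mod_cast (show 0 < p i by omega)
  have hB' : ∀ n ∈ B, ∃ m : Fin r → ℕ, 0 < n ∧ n ≤ X ∧ (∀ i, n.Coprime (p i)) ∧
      (n : ℤ) ≠ ∏ i, (p i : ℤ) ^ m i ∧
        ((n : ℤ) - ∏ i, (p i : ℤ) ^ m i).natAbs ^ C ≤ n ∧ Exc d δ w (n : ℂ) := by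
    intro n hn
    obtain ⟨h1, h2, h3, ⟨m, h4, h5⟩, h6⟩ := hB n hn
    exact ⟨m, h1, h2, h3, h4, h5, h6⟩
  choose! m hm using hB'
  -- small and large elements
  set B₀ := B.filter fun n => n < n₀ with hB₀
  set B₁ := B.filter fun n => ¬ n < n₀ with hB₁
  have hsplit : B.card = B₀.card + B₁.card := by
    rw [hB₀, hB₁, Finset.card_filter_add_card_filter_not]
  have h0 : B₀.card ≤ n₀ := by
    have h1 : B₀ ⊆ range n₀ := fun n hn => mem_range.2 (mem_filter.1 hn).2
    have h2 := card_le_card h1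
    rwa [card_range] at h2
  -- the logarithm of the product of powers
  set sl : ℕ → ℝ := fun n => ∑ i, (m n i : ℝ) * Real.log (p i) with hsl
  set s : ℕ → ℕ := fun n => ∏ i, p i ^ m n i with hs
  have hs1 : ∀ n, 1 ≤ s n := fun n => Finset.prod_pos fun i _ => Nat.pow_pos (by have := hp i; omega)
  have hsR : ∀ n, (s n : ℝ) = Real.exp (sl n) := by
    intro n
    rw [hs, hsl, Real.exp_sum]
    push_cast
    refine Finset.prod_congr rfl fun i _ => ?_
    rw [Real.exp_nat_mul, Real.exp_log (hpR i)]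
  have hsZ : ∀ n, ∏ i, (p i : ℤ) ^ m n i = (s n : ℤ) := fun n => by rw [hs]; push_cast; rfl
  set c : ℕ → ℕ := fun n => ((n : ℤ) - s n).natAbs with hc
  have hfacts : ∀ n ∈ B₁, 1 ≤ c n ∧ (n : ℝ) ≤ 2 * s n ∧ (s n : ℝ) ≤ 2 * n ∧ 8 * E ≤ sl n ∧
      (c n) ^ (4 * K) ≤ n := by
    intro n hn
    obtain ⟨hnB, hnn⟩ := mem_filter.1 hn
    obtain ⟨h1, h2, h3, h4, h5, h6⟩ := hm n hnB
    rw [hsZ] at h4 h5
    have hc1 : 1 ≤ c n := by
      rw [hc]
      simp only
      have : (n : ℤ) - s n ≠ 0 := sub_ne_zero.2 h4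
      omega
    have hcC : (c n) ^ C ≤ n := h5
    have hc2 : (c n) ^ 2 ≤ n := (Nat.pow_le_pow_right hc1 (by omega)).trans hcC
    have hc4 : (c n) ^ (4 * K) ≤ n := (Nat.pow_le_pow_right hc1 (by omega)).trans hcC
    have hn4 : 4 ≤ n := by omega
    have hch : 2 * c n ≤ n := by
      by_contra hcon
      have : 2 * c n ≥ n + 1 := by omega
      nlinarith
    have hcz : |(n : ℤ) - s n| = c n := by rw [hc]; exact Int.abs_eq_natAbs _
    have hcz2 := abs_le.1 hcz.le
    have hns : (n : ℤ) ≤ 2 * s n := by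
      have : (2 * c n : ℤ) ≤ n := by exact_mod_cast hch
      linarith [hcz2.2]
    have hsn : (s n : ℤ) ≤ 2 * n := by
      have : (2 * c n : ℤ) ≤ n := by exact_mod_cast hch
      linarith [hcz2.1]
    have hnsR : (n : ℝ) ≤ 2 * s n := by exact_mod_cast hns
    refine ⟨hc1, hnsR, by exact_mod_cast hsn, ?_, hc4⟩
    have h7 : 2 * Real.exp (8 * E) ≤ 2 * s n := by
      have h8 : 2 * Real.exp (8 * E) ≤ n₀ := by
        rw [hn₀]
        push_cast
        have := Nat.le_ceil (2 * Real.exp (8 * E))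
        linarith
      have h9 : (n₀ : ℝ) ≤ n := by exact_mod_cast (not_lt.1 hnn)
      linarith
    rw [hsR] at h7
    exact Real.exp_le_exp.1 (by linarith)
  -- the key
  set u : ℕ → ℕ := fun n => Nat.log 2 ⌊sl n⌋₊ with hu
  set σ : ℕ → Fin r → ℕ := fun a i => max 1 ⌊(2 : ℝ) ^ a / (K * Real.log (p i))⌋₊ with hσ
  set key : ℕ → ℕ × (Fin r → ℕ) := fun n =>
    (u n, fun i => (m n i + σ (u n) i - 1) / σ (u n) i) with hkey
  have hσ1 : ∀ a i, 1 ≤ σ a i := fun a i => le_max_left _ _
  have hupow : ∀ n ∈ B₁, (2 : ℝ) ^ u n ≤ sl n ∧ sl n < (2 : ℝ) ^ (u n + 1) ∧ (4 * E : ℝ) ≤ 2 ^ u n := by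
    intro n hn
    obtain ⟨h1, h2, h3, h4, h5⟩ := hfacts n hn
    have hE0 : (1 : ℝ) ≤ E := by exact_mod_cast hE1
    have hfl : 1 ≤ ⌊sl n⌋₊ := Nat.le_floor (by push_cast; linarith)
    have h6 : (2 : ℝ) ^ u n ≤ sl n := by
      have h7 : 2 ^ u n ≤ ⌊sl n⌋₊ := Nat.pow_log_le_self 2 (by omega)
      have h8 : ((2 ^ u n : ℕ) : ℝ) ≤ sl n := (Nat.le_floor_iff (by linarith)).1 h7
      push_cast at h8
      exact h8
    have h7 : sl n < (2 : ℝ) ^ (u n + 1) := by
      have h8 : ⌊sl n⌋₊ < 2 ^ (u n + 1) := Nat.lt_pow_succ_log_self (by norm_num) _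
      have h9 := (Nat.floor_lt (by linarith : (0 : ℝ) ≤ sl n)).1 h8
      push_cast at h9
      exact h9
    refine ⟨h6, h7, ?_⟩
    rw [pow_succ] at h7
    linarith
  have hKR : (1 : ℝ) ≤ K := by exact_mod_cast hK1
  have hmσ : ∀ n ∈ B₁, ∀ i, m n i ≤ 4 * K * σ (u n) i := by
    intro n hn i
    obtain ⟨h1, h2, h3⟩ := hupow n hn
    have hmi : (m n i : ℝ) * Real.log (p i) < 2 ^ (u n + 1) := by
      refine lt_of_le_of_lt ?_ h2
      rw [hsl]
      exact Finset.single_le_sum (f := fun i => (m n i : ℝ) * Real.log (p i))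
        (fun i _ => mul_nonneg (Nat.cast_nonneg _) (hlogp i).le) (mem_univ i)
    have hgoal : (m n i : ℝ) ≤ 4 * K * σ (u n) i := by
      have hKl : 0 < (K : ℝ) * Real.log (p i) := mul_pos (by linarith) (hlogp i)
      set y : ℝ := (2 : ℝ) ^ u n / (K * Real.log (p i)) with hy
      have hy1 : (m n i : ℝ) ≤ 2 * K * y := by
        rw [hy, ← mul_div_assoc, le_div_iff₀ hKl]
        rw [pow_succ] at hmi
        have : (m n i : ℝ) * (K * Real.log (p i)) = K * ((m n i : ℝ) * Real.log (p i)) := by ring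
        rw [this]
        have := mul_le_mul_of_nonneg_left hmi.le (by linarith : (0 : ℝ) ≤ K)
        linarith
      have hy2 : y ≤ 2 * σ (u n) i := by
        rw [hσ]
        simp only
        rw [← hy]
        rcases le_or_gt 1 y with h5 | h5
        · have h6 : y < ⌊y⌋₊ + 1 := Nat.lt_floor_add_one y
          have h7 : (1 : ℝ) ≤ ⌊y⌋₊ := by
            have : 1 ≤ ⌊y⌋₊ := Nat.le_floor (by push_cast; exact h5)
            exact_mod_cast this
          have h8 : ((⌊y⌋₊ : ℕ) : ℝ) ≤ ((max 1 ⌊y⌋₊ : ℕ) : ℝ) := by exact_mod_cast le_max_right _ _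
          linarith
        · have h8 : ((1 : ℕ) : ℝ) ≤ ((max 1 ⌊y⌋₊ : ℕ) : ℝ) := by exact_mod_cast le_max_left _ _
          push_cast at h8
          push_cast
          linarith
      nlinarith
    exact_mod_cast hgoal
  set L := ⌊1.5 * LL⌋₊ + 2 with hL
  set T := (range L) ×ˢ (Fintype.piFinset fun _ : Fin r => range (4 * K + 1)) with hT
  have hmaps : ∀ n ∈ B₁, key n ∈ T := by
    intro n hn
    obtain ⟨h1, h2, h3⟩ := hupow n hn
    obtain ⟨g1, g2, g3, g4, g5⟩ := hfacts n hn
    rw [hT, mem_product, hkey]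
    simp only
    constructor
    · rw [mem_range, hL]
      have hnX : (n : ℝ) ≤ X := by exact_mod_cast (hm n (mem_filter.1 hn).1).2.1
      have h4 : sl n ≤ 2 * Real.log X := by
        have h5 : Real.exp (sl n) ≤ 2 * X := by rw [← hsR]; linarith
        have h6 : sl n ≤ Real.log (2 * X) := by
          rw [Real.le_log_iff_exp_le (by linarith)]
          exact h5
        rw [Real.log_mul (by norm_num) (by linarith)] at h6
        have h7 : Real.log 2 ≤ Real.log X := Real.log_le_log (by norm_num) (by linarith)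
        linarith
      have hlX : 0 < Real.log X := Real.log_pos (by linarith)
      have h5 : (u n : ℝ) * Real.log 2 ≤ Real.log 2 + LL := by
        rw [hLLd, ← Real.log_mul (by norm_num) hlX.ne', ← Real.log_pow]
        exact Real.log_le_log (by positivity) (h1.trans h4)
      have h6 := Real.log_two_gt_d9
      have h7 : (u n : ℝ) ≤ 1 + 1.5 * LL := by
        by_contra hcon
        push Not at hcon
        have h8 : (1 + 1.5 * LL) * Real.log 2 ≤ (u n : ℝ) * Real.log 2 :=
          mul_le_mul_of_nonneg_right hcon.le (by linarith)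
        nlinarith
      have h8 : 1.5 * LL < (⌊1.5 * LL⌋₊ : ℝ) + 1 := Nat.lt_floor_add_one _
      have h9 : (u n : ℝ) < ((⌊1.5 * LL⌋₊ + 2 : ℕ) : ℝ) := by push_cast; linarith
      exact_mod_cast h9
    · rw [Fintype.mem_piFinset]
      intro i
      rw [mem_range]
      have h5 := hmσ n hn i
      have h6 := hσ1 (u n) i
      rw [Nat.div_lt_iff_lt_mul (by omega)]
      have h7 : (4 * K + 1) * σ (u n) i = 4 * K * σ (u n) i + σ (u n) i := by ring
      rw [h7]
      omega
  have hcard : B₁.card ≤ (N + r + 1) * T.card := by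
    refine Finset.card_le_mul_card_image_of_maps_to hmaps _ fun t _ => ?_
    rcases (B₁.filter fun n => key n = t).eq_empty_or_nonempty with h1 | ⟨n₁, hn₁⟩
    · rw [h1, card_empty]; exact Nat.zero_le _
    set a := t.1 with ha
    have hk : ∀ n ∈ B₁.filter (fun n => key n = t), u n = a ∧
        ∀ i, (m n i + σ a i - 1) / σ a i = t.2 i := by
      intro n hn
      have h2 := (mem_filter.1 hn).2
      rw [hkey] at h2
      simp only at h2
      have h3 : u n = a := congrArg Prod.fst h2
      refine ⟨h3, fun i => ?_⟩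
      have h4 := congrFun (congrArg Prod.snd h2) i
      simp only at h4
      rw [h3] at h4
      exact h4
    set b : Fin r → ℕ := fun i => σ a i * t.2 i with hb
    have hmb : ∀ n ∈ B₁.filter (fun n => key n = t), ∀ i, m n i ≤ b i ∧ b i - m n i ≤ σ a i - 1 := by
      intro n hn i
      have h2 := (hk n hn).2 i
      rw [hb]
      simp only
      rw [← h2]
      have h3 := Nat.div_add_mod (m n i + σ a i - 1) (σ a i)
      have h4 := Nat.mod_lt (m n i + σ a i - 1) (hσ1 a i)
      have h5 := hσ1 a i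
      constructor <;> omega
    set x : ℝ := (r + 1) * 2 ^ a / K with hx
    have hx0 : 0 ≤ x := by positivity
    set H : ℕ := ⌊Real.exp x⌋₊ with hH
    refine hE υ hυ w p hp b H ?_ _ fun n hn => ?_
    · -- the size of the window
      obtain ⟨g1, g2, g3⟩ := hupow n₁ (mem_filter.1 hn₁).1
      rw [(hk n₁ hn₁).1] at g1 g2 g3
      have h2 : ((H : ℝ) + 2) ≤ 3 * Real.exp x := by
        have h3 : (H : ℝ) ≤ Real.exp x := Nat.floor_le (Real.exp_pos x).le
        have h4 : 1 ≤ Real.exp x := Real.one_le_exp hx0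
        linarith
      have h3 : (3 : ℝ) ≤ Real.exp 2 := by
        have h4 : (2.7 : ℝ) < Real.exp 1 := by
          have := Real.exp_one_gt_d9
          linarith
        have h5 : Real.exp 2 = Real.exp 1 * Real.exp 1 := by rw [← Real.exp_add]; norm_num
        rw [h5]
        nlinarith
      have h4 : ((H : ℝ) + 2) ^ E ≤ Real.exp (2 ^ a) := by
        calc ((H : ℝ) + 2) ^ E ≤ (Real.exp 2 * Real.exp x) ^ E := by
              refine pow_le_pow_left₀ (by positivity) (h2.trans ?_) _
              exact mul_le_mul_of_nonneg_right h3 (Real.exp_pos x).le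
          _ = Real.exp (E * (2 + x)) := by rw [← Real.exp_add, Real.exp_nat_mul]
          _ ≤ Real.exp (2 ^ a) := by
              apply Real.exp_le_exp.2
              have h5 : (E : ℝ) * x = 2 ^ a / 2 := by
                rw [hx, hK]
                push_cast
                have : (E : ℝ) ≠ 0 := by
                  have : (1 : ℝ) ≤ E := by exact_mod_cast hE1
                  linarith
                field_simp
              have h6 : (E : ℝ) * (2 + x) = 2 * E + E * x := by ring
              rw [h6, h5]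
              linarith
      have h5 : Real.exp (2 ^ a) ≤ s n₁ := by
        rw [hsR]
        exact Real.exp_le_exp.2 g1
      have h6 : (s n₁ : ℝ) ≤ ((∏ i, p i ^ b i : ℕ) : ℝ) := by
        have : s n₁ ≤ ∏ i, p i ^ b i := by
          rw [hs]
          refine Finset.prod_le_prod' fun i _ => ?_
          exact Nat.pow_le_pow_right (by have := hp i; omega) (hmb n₁ hn₁ i).1
        exact_mod_cast this
      have h7 : ((H + 2 : ℕ) : ℝ) ^ E ≤ ((∏ i, p i ^ b i : ℕ) : ℝ) := by
        push_cast at h6 ⊢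
        linarith
      exact_mod_cast h7
    · -- the elements
      have hn1 := (mem_filter.1 hn).1
      have hnB := (mem_filter.1 hn1).1
      obtain ⟨g1, g2, g3⟩ := hupow n hn1
      rw [(hk n hn).1] at g1 g2 g3
      obtain ⟨f1, f2, f3, f4, f5⟩ := hfacts n hn1
      obtain ⟨e1, e2, e3, e4, e5, e6⟩ := hm n hnB
      refine ⟨m n, fun i => (hmb n hn i).1, e1, e3, e4, ?_, e6⟩
      rw [hsZ]
      have h2 : |(n : ℤ) - s n| = c n := by rw [hc]; exact Int.abs_eq_natAbs _
      rw [h2]
      have hlogc : Real.log (c n) ≤ 2 ^ a / K := by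
        have hcp : (0 : ℝ) < c n := by exact_mod_cast (show 0 < c n by omega)
        have h3 : (4 * K : ℕ) * Real.log (c n) ≤ Real.log n := by
          rw [← Real.log_pow]
          exact Real.log_le_log (by positivity) (by exact_mod_cast f5)
        have h4 : Real.log n ≤ Real.log 2 + sl n := by
          have h5 : Real.log n ≤ Real.log (2 * s n) :=
            Real.log_le_log (by exact_mod_cast e1) f2
          rw [Real.log_mul (by norm_num) (by have := hs1 n; positivity), hsR, Real.log_exp] at h5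
          exact h5
        have h5 : Real.log 2 ≤ 2 ^ a := by
          have h6 := Real.log_two_lt_d9
          have h7 : (1 : ℝ) ≤ 2 ^ a := one_le_pow₀ (by norm_num)
          linarith
        rw [pow_succ] at g2
        rw [le_div_iff₀ (by linarith)]
        push_cast at h3
        have h8 : 0 ≤ Real.log (c n) := Real.log_natCast_nonneg _
        nlinarith
      have hlogb : ∀ i, ((b i - m n i : ℕ) : ℝ) * Real.log (p i) ≤ 2 ^ a / K := by
        intro i
        have h3 := (hmb n hn i).2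
        have h4 : ((σ a i - 1 : ℕ) : ℝ) ≤ 2 ^ a / (K * Real.log (p i)) := by
          have hy0 : (0 : ℝ) ≤ 2 ^ a / (K * Real.log (p i)) :=
            div_nonneg (by positivity) (mul_nonneg (by linarith) (hlogp i).le)
          rw [hσ]
          simp only
          rcases le_or_gt 1 ⌊(2 : ℝ) ^ a / (K * Real.log (p i))⌋₊ with h5 | h5
          · rw [max_eq_right h5]
            refine le_trans ?_ (Nat.floor_le hy0)
            exact_mod_cast Nat.sub_le _ _
          · rw [max_eq_left h5.le, Nat.sub_self, Nat.cast_zero]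
            exact hy0
        calc ((b i - m n i : ℕ) : ℝ) * Real.log (p i) ≤ 2 ^ a / (K * Real.log (p i)) * Real.log (p i) := by
              refine mul_le_mul_of_nonneg_right (le_trans ?_ h4) (hlogp i).le
              exact_mod_cast h3
          _ = 2 ^ a / K := by
              have := (hlogp i).ne'
              field_simp
      have hprod : ((c n : ℕ) : ℝ) * ∏ i, (p i : ℝ) ^ (b i - m n i) ≤ Real.exp x := by
        have hcp : (0 : ℝ) < c n := by exact_mod_cast (show 0 < c n by omega)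
        have h3 : ∏ i, (p i : ℝ) ^ (b i - m n i) =
            Real.exp (∑ i, ((b i - m n i : ℕ) : ℝ) * Real.log (p i)) := by
          rw [Real.exp_sum]
          refine Finset.prod_congr rfl fun i _ => ?_
          rw [Real.exp_nat_mul, Real.exp_log (hpR i)]
        rw [h3]
        conv_lhs => rw [← Real.exp_log hcp]
        rw [← Real.exp_add]
        apply Real.exp_le_exp.2
        have h4 : ∑ i, ((b i - m n i : ℕ) : ℝ) * Real.log (p i) ≤ ∑ _i : Fin r, (2 : ℝ) ^ a / K :=
          Finset.sum_le_sum fun i _ => hlogb i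
        rw [Finset.sum_const, card_univ, Fintype.card_fin, nsmul_eq_mul] at h4
        rw [hx]
        have h5 : ((r : ℝ) + 1) * 2 ^ a / K = 2 ^ a / K + r * (2 ^ a / K) := by ring
        rw [h5]
        linarith
      have hnat : (((c n) * ∏ i, p i ^ (b i - m n i) : ℕ) : ℝ) ≤ Real.exp x := by
        push_cast
        exact hprod
      have h8 : (c n) * ∏ i, p i ^ (b i - m n i) ≤ H := Nat.le_floor hnat
      have h9 : (((c n) * ∏ i, p i ^ (b i - m n i) : ℕ) : ℤ) ≤ (H : ℤ) := Nat.cast_le.2 h8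
      push_cast at h9
      exact h9
  have hTc : T.card = L * (4 * K + 1) ^ r := by
    rw [hT, card_product, card_range, Fintype.card_piFinset_const, card_range]
  have hLR : (L : ℝ) ≤ 4 * LL := by
    rw [hL]
    push_cast
    have : (⌊1.5 * LL⌋₊ : ℝ) ≤ 1.5 * LL := Nat.floor_le (by linarith)
    linarith
  have hfin : (B.card : ℝ) ≤ n₀ + (N + r + 1) * (L * (4 * K + 1) ^ r) := by
    rw [hTc] at hcard
    have h1 : B.card ≤ n₀ + (N + r + 1) * (L * (4 * K + 1) ^ r) := by
      rw [hsplit]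
      exact Nat.add_le_add h0 hcard
    exact_mod_cast h1
  refine hfin.trans ?_
  have hW : (0 : ℝ) ≤ (4 * K + 1 : ℝ) ^ r * (N + r + 1) := by positivity
  have hCr : (C : ℝ) = 4 * K + n₀ + 4 * ((4 * K + 1) ^ r * (N + r + 1)) + 2 := by
    rw [hC]; push_cast; ring
  calc (n₀ : ℝ) + (N + r + 1) * (L * (4 * K + 1) ^ r)
      = n₀ + L * ((4 * K + 1 : ℝ) ^ r * (N + r + 1)) := by ring
    _ ≤ n₀ * LL + 4 * LL * ((4 * K + 1 : ℝ) ^ r * (N + r + 1)) := by
        refine add_le_add ?_ (mul_le_mul_of_nonneg_right hLR hW)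
        exact le_mul_of_one_le_right (Nat.cast_nonneg _) hLL
    _ ≤ C * LL := by
        rw [hCr]
        nlinarith

end Pool.Agent.R351.SU
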